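import Pool.Agent.N792.SingT
import Pool.Agent.TH892.SW.S8

/-!
# Project QW: the sieve model for a quadratic polynomial in a window
-/

set_option autoImplicit false
set_option maxHeartbeats 1000000

namespace Run7.h373.QW

open Finset Filter Topology
open Pool.Agent.N792 (Vc V1 rho fv partialC eps gcdProd Admissible)
open Pool.Agent.N792.SingTail (rho_zmod rho_le rho_leg rho_legR V_ratio V1_pos Vc_nonneg)
open Pool.Agent.H373R2.T7 (pz Vz lamz mem_pz Vz_ge)
open Pool.Agent.TH892.SW (fl_set abel_anti abel_mono wt wt_anti wt_le wt_nonneg lamz_nonneg)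
open Pool.Agent.W41 (JJ JJ_small)

/-- the value of the polynomial at an integer -/
def qv (a b c : ℤ) (n : ℤ) : ℤ := a * n ^ 2 + b * n + c

lemma qv_add (a b c A : ℤ) (t : ℕ) : qv a b c (A + t) = fv a (2 * a * A + b) (qv a b c A) t := by
  unfold qv fv; ring

/-- the number of the roots is translation invariant -/
lemma rho_shift (a b c A : ℤ) {p : ℕ} (hp : p.Prime) : rho a (2 * a * A + b) (qv a b c A) p = rho a b c p := by
  have : Fact p.Prime := ⟨hp⟩
  rw [rho_zmod, rho_zmod]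
  refine card_nbij' (fun x : ZMod p => x + (A : ZMod p)) (fun x => x - (A : ZMod p)) ?_ ?_ ?_ ?_
  · intro x hx
    rw [mem_coe, mem_filter] at hx ⊢
    refine ⟨mem_univ _, ?_⟩
    have h := hx.2
    unfold qv at h
    push_cast at h
    rw [← h]; ring
  · intro x hx
    rw [mem_coe, mem_filter] at hx ⊢
    refine ⟨mem_univ _, ?_⟩
    have h := hx.2
    unfold qv
    push_cast
    rw [← h]; ring
  · intro x _
    simp
  · intro x _
    simp

lemma rho_le_two {a b c : ℤ} (h : Admissible a b c) {p : ℕ} (hp : p.Prime) : rho a b c p ≤ 2 := by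
  have : Fact p.Prime := ⟨hp⟩
  by_cases h2 : p = 2
  · rw [h2]; exact rho_le a b c 2
  by_cases hpa : (p : ℤ) ∣ a
  · rw [rho_zmod]
    have ha0 : (a : ZMod p) = 0 := (ZMod.intCast_zmod_eq_zero_iff_dvd _ _).2 hpa
    by_cases hpb : (p : ℤ) ∣ b
    · have hb0 : (b : ZMod p) = 0 := (ZMod.intCast_zmod_eq_zero_iff_dvd _ _).2 hpb
      have hc0 : (c : ZMod p) ≠ 0 := by
        intro h0
        have hpc : (p : ℤ) ∣ c := (ZMod.intCast_zmod_eq_zero_iff_dvd _ _).1 h0
        have h4 := h.2.1 p hpa hpb hpc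
        rw [Int.isUnit_iff] at h4
        have := hp.two_le
        omega
      rw [filter_eq_empty_iff.2, card_empty]
      · omega
      · intro x _
        rw [ha0, hb0]
        simpa using hc0
    · have hb0 : (b : ZMod p) ≠ 0 := fun h0 => hpb ((ZMod.intCast_zmod_eq_zero_iff_dvd _ _).1 h0)
      refine (card_le_one.2 ?_).trans (by norm_num)
      intro x hx y hy
      rw [mem_filter] at hx hy
      have h1 := hx.2
      have h3 := hy.2
      rw [ha0] at h1 h3
      have h4 : (b : ZMod p) * x = b * y := by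
        have : (b : ZMod p) * x + c = b * y + c := by
          rw [zero_mul, zero_add] at h1 h3
          rw [h1, h3]
        exact add_right_cancel this
      exact mul_left_cancel₀ hb0 h4
  · have h1 := rho_legR a b c hp h2 hpa
    have h3 := (abs_le.1 (Pool.Agent.TH892.SW.js_le (b ^ 2 - 4 * a * c) p)).2
    have h4 : (rho a b c p : ℝ) ≤ 2 := by rw [h1]; linarith
    exact_mod_cast h4

lemma pz_V1 (z : ℕ) : Vz z = V1 z := rfl

lemma Vc_eq (a b c : ℤ) (z : ℕ) : Vc a b c z = ∏ p ∈ pz z, (1 - (rho a b c p : ℝ) / p) := rfl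

open Classical in
/-- the fundamental lemma for a quadratic polynomial in a window -/
theorem flp : ∃ C1 y0 : ℕ, 1 ≤ C1 ∧ 2 ≤ y0 ∧ ∀ k : ℕ, C1 ≤ k → ∀ z : ℕ, y0 ≤ z → ∀ (a b c A : ℤ) (N : ℕ),
    Admissible a b c →
    |((((Icc 1 N).filter (fun t : ℕ => ∀ p ∈ pz z, ¬ (p : ℤ) ∣ qv a b c (A + t))).card : ℕ) : ℝ) -
      N * Vc a b c z| ≤ (1 / 2 : ℝ) ^ k * (N * Vc a b c z) + (z : ℝ) ^ (C1 * k) := by
  obtain ⟨C0, K0, hC0, hK0, hfl⟩ := fl_set 2
  refine ⟨4 * C0 + 3, K0 + 3, by omega, by omega, fun k hk z hz a b c A N hadm => ?_⟩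
  have hcard : ∀ p : ℕ, p.Prime → ((range p).filter (fun t : ℕ => (p : ℤ) ∣ qv a b c (A + t))).card = rho a b c p := by
    intro p hp
    rw [← rho_shift a b c A hp]
    unfold rho
    congr 1
    ext t
    simp only [mem_filter, qv_add]
  have h1 := hfl k (by omega) z (by omega) N (pz z) (fun p t => (p : ℤ) ∣ qv a b c (A + t)) (by
    intro p hp
    rw [mem_pz] at hp
    refine ⟨hp.2, hp.1, ?_⟩
    have h3 := hcard p hp.2
    have h4 := rho_le_two hadm hp.2
    rw [← h3] at h4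
    convert h4)
  have hVe : ∏ p ∈ pz z, (1 - ((((range p).filter (fun t : ℕ => (p : ℤ) ∣ qv a b c (A + t))).card : ℕ) : ℝ) / p) =
      Vc a b c z := by
    rw [Vc_eq]
    apply prod_congr rfl
    intro p hp
    rw [hcard p (mem_pz.1 hp).2]
  have hmod : ∀ n p : ℕ, ((p : ℤ) ∣ qv a b c (A + ((n % p : ℕ) : ℤ))) ↔ ((p : ℤ) ∣ qv a b c (A + (n : ℤ))) := by
    intro n p
    have h4 : (A + ((n % p : ℕ) : ℤ)) ≡ (A + (n : ℤ)) [ZMOD p] := by
      apply Int.ModEq.add_left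
      rw [Int.natCast_mod]
      exact Int.mod_modEq _ _
    have h3 : qv a b c (A + ((n % p : ℕ) : ℤ)) ≡ qv a b c (A + (n : ℤ)) [ZMOD p] := by
      unfold qv
      exact (((h4.pow 2).mul_left a).add (h4.mul_left b)).add_right c
    rw [Int.dvd_iff_emod_eq_zero, Int.dvd_iff_emod_eq_zero, h3]
  have hset : ((Icc 1 N).filter (fun t : ℕ => ∀ p ∈ pz z, ¬ (p : ℤ) ∣ qv a b c (A + t))) =
      ((Icc 1 N).filter (fun n : ℕ => ∀ p ∈ pz z, ¬ (p : ℤ) ∣ qv a b c (A + ((n % p : ℕ) : ℤ)))) := by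
    apply filter_congr
    intro n _
    constructor
    · intro h p hp hd
      exact h p hp ((hmod n p).1 hd)
    · intro h p hp hd
      exact h p hp ((hmod n p).2 hd)
  rw [hset]
  set V := Vc a b c z with hV
  have h2 : |((((Icc 1 N).filter (fun n : ℕ => ∀ p ∈ pz z, ¬ (p : ℤ) ∣ qv a b c (A + ((n % p : ℕ) : ℤ)))).card : ℕ) : ℝ) - N * V| ≤
      (1 / 2 : ℝ) ^ k * (N * V) + ((JJ z : ℝ) + 2) * ((z : ℝ) ^ (2 * (C0 * k)) * (K0 * (z : ℝ) ^ (2 * (C0 * k)))) := by
    rw [← hVe]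
    convert h1 using 6 <;> congr!
  refine h2.trans (add_le_add le_rfl ?_)
  have hy1 : (1 : ℝ) ≤ z := by exact_mod_cast (by omega : 1 ≤ z)
  have hy2 : (2 : ℝ) ≤ z := by exact_mod_cast (by omega : 2 ≤ z)
  have hy0 : (0 : ℝ) < z := by linarith
  have hJ : ((JJ z : ℝ) + 2) ≤ z * z := by
    have h3 : ((JJ z : ℝ) + 2) ≤ 2 * z := by exact_mod_cast JJ_small z (by omega)
    nlinarith
  have hK0 : (K0 : ℝ) ≤ z := by exact_mod_cast (by omega : K0 ≤ z)
  calc ((JJ z : ℝ) + 2) * ((z : ℝ) ^ (2 * (C0 * k)) * (K0 * (z : ℝ) ^ (2 * (C0 * k))))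
      ≤ (z * z) * ((z : ℝ) ^ (2 * (C0 * k)) * (z * (z : ℝ) ^ (2 * (C0 * k)))) := by gcongr
    _ = (z : ℝ) ^ (4 * (C0 * k) + 3) := by
        rw [show 4 * (C0 * k) + 3 = 2 * (C0 * k) + 2 * (C0 * k) + 1 + 1 + 1 by ring]
        simp only [pow_succ, pow_add]
        ring
    _ ≤ (z : ℝ) ^ ((4 * C0 + 3) * k) := by
        apply pow_le_pow_right₀ hy1
        have : 1 ≤ k := by omega
        nlinarith

/-- the density of the model -/
noncomputable def RR (a b c : ℤ) (z : ℕ) : ℝ := Vc a b c z / V1 z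

lemma RR_nonneg (a b c : ℤ) (z : ℕ) : 0 ≤ RR a b c z := div_nonneg (Vc_nonneg _ _ _ _) (V1_pos _).le

open Classical in
lemma lam_sum (z : ℕ) (a b c : ℤ) (u v : ℕ) (huv : u ≤ v) :
    ∑ i ∈ Ioc u v, lamz z (qv a b c i).natAbs = (Vz z)⁻¹ *
      ((((Icc 1 (v - u)).filter (fun t : ℕ => ∀ p ∈ pz z, ¬ (p : ℤ) ∣ qv a b c ((u : ℤ) + t))).card : ℕ) : ℝ) := by
  have h1 : ∑ i ∈ Ioc u v, lamz z (qv a b c i).natAbs = ∑ t ∈ Icc 1 (v - u), lamz z (qv a b c ((u + t : ℕ) : ℤ)).natAbs := by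
    refine sum_nbij' (fun i => i - u) (fun t => u + t) ?_ ?_ ?_ ?_ ?_
    · intro i hi
      rw [mem_Ioc] at hi; rw [mem_Icc]; omega
    · intro t ht
      rw [mem_Icc] at ht; rw [mem_Ioc]; omega
    · intro i hi
      rw [mem_Ioc] at hi; omega
    · intro t ht
      omega
    · intro i hi
      rw [mem_Ioc] at hi
      show lamz z (qv a b c i).natAbs = lamz z (qv a b c ((u + (i - u) : ℕ) : ℤ)).natAbs
      rw [show u + (i - u) = i by omega]
  rw [h1, card_filter]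
  push_cast
  rw [mul_sum]
  refine sum_congr rfl fun t _ => ?_
  unfold lamz
  have h3 : ∀ p : ℕ, (p ∣ (qv a b c ((u : ℤ) + t)).natAbs) ↔ ((p : ℤ) ∣ qv a b c ((u : ℤ) + t)) := fun p => by
    rw [← Int.natCast_dvd]
  simp only [h3]
  by_cases h4 : ∀ p ∈ pz z, ¬ (p : ℤ) ∣ qv a b c ((u : ℤ) + t)
  · rw [if_pos h4, if_pos h4, mul_one]
  · rw [if_neg h4, if_neg h4, mul_zero]

/-- the model in intervals -/
theorem model : ∃ C1 y0 : ℕ, 1 ≤ C1 ∧ 2 ≤ y0 ∧ ∀ k : ℕ, C1 ≤ k → ∀ z : ℕ, y0 ≤ z → ∀ (a b c : ℤ),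
    Admissible a b c → ∀ u v : ℕ, u ≤ v →
    |∑ i ∈ Ioc u v, (lamz z (qv a b c i).natAbs - RR a b c z)| ≤
      (1 / 2 : ℝ) ^ k * RR a b c z * ((v : ℝ) - u) + (z : ℝ) ^ (C1 * k + 1) := by
  classical
  obtain ⟨C1, y0, hC1, hy0, h⟩ := flp
  refine ⟨C1, y0, hC1, hy0, fun k hk z hz a b c hadm u v huv => ?_⟩
  have hz1 : 1 ≤ z := by omega
  have hV := Pool.Agent.H373R2.T7.Vz_pos z
  have h1 := h k hk z hz a b c u (v - u) hadm
  rw [sum_sub_distrib, lam_sum z a b c u v huv, sum_const, Nat.card_Ioc, nsmul_eq_mul]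
  set cd : ℝ := ((((Icc 1 (v - u)).filter (fun t : ℕ => ∀ p ∈ pz z, ¬ (p : ℤ) ∣ qv a b c ((u : ℤ) + t))).card : ℕ) : ℝ)
  have e1 : (Vz z)⁻¹ * cd - ((v - u : ℕ) : ℝ) * RR a b c z = (Vz z)⁻¹ * (cd - ((v - u : ℕ) : ℝ) * Vc a b c z) := by
    unfold RR
    rw [← pz_V1]
    field_simp
  rw [e1, abs_mul, abs_of_pos (inv_pos.2 hV)]
  have e2 : (v : ℝ) - u = ((v - u : ℕ) : ℝ) := by rw [Nat.cast_sub huv]
  rw [e2]
  calc (Vz z)⁻¹ * |cd - ((v - u : ℕ) : ℝ) * Vc a b c z| ≤
        (Vz z)⁻¹ * ((1 / 2 : ℝ) ^ k * (((v - u : ℕ) : ℝ) * Vc a b c z) + (z : ℝ) ^ (C1 * k)) :=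
        mul_le_mul_of_nonneg_left h1 (inv_nonneg.2 hV.le)
    _ = (1 / 2 : ℝ) ^ k * RR a b c z * ((v - u : ℕ) : ℝ) + (Vz z)⁻¹ * (z : ℝ) ^ (C1 * k) := by
        unfold RR
        rw [← pz_V1]
        field_simp
    _ ≤ _ := by
        apply add_le_add le_rfl
        rw [pow_succ, mul_comm]
        exact mul_le_mul_of_nonneg_left (Pool.Agent.H373R2.T7.Vz_inv_le z hz1) (by positivity)

/-- a monotone piece -/
lemma seg_mono (F : ℕ → ℤ) (β : ℕ → ℝ) (u v : ℕ) (hF : ∀ i, u < i → i < v → F i ≤ F (i + 1)) (δ R : ℝ) (hδ : 0 ≤ δ)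
    (hR : 0 ≤ R) (hb : ∀ i j, u ≤ i → i ≤ j → j ≤ v → |∑ n ∈ Ioc i j, β n| ≤ δ * ((j : ℝ) - i) + R) :
    |∑ i ∈ (Ioc u v).filter (fun i => 2 ≤ F i), wt (F i).toNat * β i| ≤
      δ * ∑ i ∈ (Ioc u v).filter (fun i => 2 ≤ F i), wt (F i).toNat + R * (3 / 2) := by
  have hmono : ∀ j, u < j → ∀ d, j + d ≤ v → F j ≤ F (j + d) := by
    intro j hj d
    induction d with
    | zero => intro _; exact le_rfl
    | succ d ih =>
      intro h
      exact (ih (by omega)).trans (hF (j + d) (by omega) (by omega))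
  rcases ((Ioc u v).filter (fun i => 2 ≤ F i)).eq_empty_or_nonempty with h0 | h0
  · rw [h0, sum_empty, sum_empty, abs_zero]
    positivity
  · obtain ⟨j, hj⟩ : ∃ j, j = ((Ioc u v).filter (fun i => 2 ≤ F i)).min' h0 := ⟨_, rfl⟩
    have hjm := ((Ioc u v).filter (fun i => 2 ≤ F i)).min'_mem h0
    rw [← hj, mem_filter, mem_Ioc] at hjm
    have hjl : ∀ i ∈ (Ioc u v).filter (fun i => 2 ≤ F i), j ≤ i := fun i hi => by
      rw [hj]; exact min'_le _ i hi
    have hset : (Ioc u v).filter (fun i => 2 ≤ F i) = Ioc (j - 1) v := by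
      ext i
      constructor
      · intro hi
        have h1 := hjl i hi
        rw [mem_filter, mem_Ioc] at hi
        rw [mem_Ioc]
        omega
      · intro hi
        rw [mem_Ioc] at hi
        rw [mem_filter, mem_Ioc]
        refine ⟨by omega, ?_⟩
        have h1 := hmono j (by omega) (i - j) (by omega)
        rw [show j + (i - j) = i by omega] at h1
        exact hjm.2.trans h1
    rw [hset]
    have h1 := abel_anti (fun i => wt (F i).toNat) β (j - 1) v (by omega) (fun i => wt_nonneg _) (by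
      intro i h1 h2
      have h3 := hF i (by omega) (by omega)
      have h4 := hmono j (by omega) (i - j) (by omega)
      rw [show j + (i - j) = i by omega] at h4
      exact wt_anti (by omega) (by omega)) δ R hδ hR (fun i h1 h2 => hb (j - 1) i (by omega) h1 h2)
    refine h1.trans (add_le_add le_rfl ?_)
    apply mul_le_mul_of_nonneg_left _ hR
    rw [show j - 1 + 1 = j by omega]
    exact wt_le (by omega)

/-- an antitone piece -/
lemma seg_anti (F : ℕ → ℤ) (β : ℕ → ℝ) (u v : ℕ) (hF : ∀ i, u < i → i < v → F (i + 1) ≤ F i) (δ R : ℝ) (hδ : 0 ≤ δ)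
    (hR : 0 ≤ R) (hb : ∀ i j, u ≤ i → i ≤ j → j ≤ v → |∑ n ∈ Ioc i j, β n| ≤ δ * ((j : ℝ) - i) + R) :
    |∑ i ∈ (Ioc u v).filter (fun i => 2 ≤ F i), wt (F i).toNat * β i| ≤
      δ * ∑ i ∈ (Ioc u v).filter (fun i => 2 ≤ F i), wt (F i).toNat + R * (3 / 2) := by
  have hmono : ∀ j, u < j → ∀ d, j + d ≤ v → F (j + d) ≤ F j := by
    intro j hj d
    induction d with
    | zero => intro _; exact le_rfl
    | succ d ih =>
      intro h
      exact (hF (j + d) (by omega) (by omega)).trans (ih (by omega))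
  rcases ((Ioc u v).filter (fun i => 2 ≤ F i)).eq_empty_or_nonempty with h0 | h0
  · rw [h0, sum_empty, sum_empty, abs_zero]
    positivity
  · obtain ⟨j, hj⟩ : ∃ j, j = ((Ioc u v).filter (fun i => 2 ≤ F i)).max' h0 := ⟨_, rfl⟩
    have hjm := ((Ioc u v).filter (fun i => 2 ≤ F i)).max'_mem h0
    rw [← hj, mem_filter, mem_Ioc] at hjm
    have hjl : ∀ i ∈ (Ioc u v).filter (fun i => 2 ≤ F i), i ≤ j := fun i hi => by
      rw [hj]; exact le_max' _ i hi
    have hset : (Ioc u v).filter (fun i => 2 ≤ F i) = Ioc u j := by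
      ext i
      constructor
      · intro hi
        have h1 := hjl i hi
        rw [mem_filter, mem_Ioc] at hi
        rw [mem_Ioc]
        omega
      · intro hi
        rw [mem_Ioc] at hi
        rw [mem_filter, mem_Ioc]
        refine ⟨by omega, ?_⟩
        have h1 := hmono i (by omega) (j - i) (by omega)
        rw [show i + (j - i) = j by omega] at h1
        exact hjm.2.trans h1
    rw [hset]
    have h1 := abel_mono (fun i => wt (F i).toNat) β u j (by omega) (fun i => wt_nonneg _) (by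
      intro i h1 h2
      have h3 := hF i (by omega) (by omega)
      have h4 := hmono (i + 1) (by omega) (j - (i + 1)) (by omega)
      rw [show i + 1 + (j - (i + 1)) = j by omega] at h4
      exact wt_anti (by omega) (by omega)) δ R hδ hR (fun i h1 h2 => hb i j (by omega) h2 (by omega))
    refine h1.trans (add_le_add le_rfl ?_)
    apply mul_le_mul_of_nonneg_left _ hR
    exact wt_le (by omega)

/-- the model with the weight, in a window -/
theorem model_w : ∃ C1 y0 : ℕ, 1 ≤ C1 ∧ 2 ≤ y0 ∧ ∀ k : ℕ, C1 ≤ k → ∀ z : ℕ, y0 ≤ z → ∀ (a b c : ℤ),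
    Admissible a b c → ∀ s : ℤ, (s = 1 ∨ s = -1) → ∀ u v : ℕ, u ≤ v →
    |∑ i ∈ (Ioc u v).filter (fun i : ℕ => 2 ≤ s * qv a b c i),
        wt (s * qv a b c i).toNat * (lamz z (s * qv a b c i).toNat - RR a b c z)| ≤
      (1 / 2 : ℝ) ^ k * RR a b c z * ∑ i ∈ (Ioc u v).filter (fun i : ℕ => 2 ≤ s * qv a b c i), wt (s * qv a b c i).toNat +
        3 * (z : ℝ) ^ (C1 * k + 1) := by
  obtain ⟨C1, y0, hC1, hy0, h⟩ := model
  refine ⟨C1, y0, hC1, hy0, fun k hk z hz a b c hadm s hs u v huv => ?_⟩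
  have ha : 0 < a := hadm.1
  obtain ⟨β, hβ⟩ : ∃ β : ℕ → ℝ, β = fun i : ℕ => lamz z (qv a b c (i : ℤ)).natAbs - RR a b c z := ⟨_, rfl⟩
  have hb : ∀ i j, i ≤ j → |∑ n ∈ Ioc i j, β n| ≤ (1 / 2 : ℝ) ^ k * RR a b c z * ((j : ℝ) - i) + (z : ℝ) ^ (C1 * k + 1) := by
    intro i j hij
    rw [hβ]
    exact h k hk z hz a b c hadm i j hij
  have hR := RR_nonneg a b c z
  have hδ : 0 ≤ (1 / 2 : ℝ) ^ k * RR a b c z := by positivity
  have hR2 : (0 : ℝ) ≤ (z : ℝ) ^ (C1 * k + 1) := by positivity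
  -- the sum in terms of `β`
  have e0 : ∀ (S : Finset ℕ), ∑ i ∈ S.filter (fun i : ℕ => 2 ≤ s * qv a b c i),
        wt (s * qv a b c i).toNat * (lamz z (s * qv a b c i).toNat - RR a b c z) =
      ∑ i ∈ S.filter (fun i : ℕ => 2 ≤ s * qv a b c i), wt (s * qv a b c i).toNat * β i := by
    intro S
    refine sum_congr rfl fun i hi => ?_
    rw [mem_filter] at hi
    have e1 : (s * qv a b c i).toNat = (qv a b c i).natAbs := by
      rcases hs with h1 | h1
      · rw [h1, one_mul] at hi ⊢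
        omega
      · rw [h1] at hi ⊢
        omega
    rw [hβ, e1]
  rw [e0]
  -- the vertex
  have hstep : ∀ i : ℕ, qv a b c ((i + 1 : ℕ) : ℤ) - qv a b c (i : ℤ) = a * (2 * i + 1) + b := by
    intro i
    unfold qv
    push_cast
    ring
  obtain ⟨n₀, hn1, hn2⟩ : ∃ n₀ : ℕ, (∀ i : ℕ, n₀ ≤ i → 0 ≤ a * (2 * i + 1) + b) ∧
      (∀ i : ℕ, i < n₀ → a * (2 * i + 1) + b < 0) := by
    have hex : ∃ n : ℕ, 0 ≤ a * (2 * (n : ℤ) + 1) + b := by
      refine ⟨b.natAbs, ?_⟩
      have h1 : (b.natAbs : ℤ) = |b| := Int.natCast_natAbs b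
      rw [h1]
      have h2 := neg_abs_le b
      have h3 := abs_nonneg b
      nlinarith
    classical
    refine ⟨Nat.find hex, fun i hi => ?_, fun i hi => ?_⟩
    · have h1 := Nat.find_spec hex
      have h2 : ((Nat.find hex : ℕ) : ℤ) ≤ i := by exact_mod_cast hi
      nlinarith
    · have h1 := Nat.find_min hex hi
      omega
  obtain ⟨κ, hκ⟩ : ∃ κ : ℕ, κ = max u (min v n₀) := ⟨_, rfl⟩
  have huκ : u ≤ κ := by rw [hκ]; exact le_max_left _ _
  have hκv : κ ≤ v := by rw [hκ]; exact max_le huv (min_le_left _ _)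
  have hsplit : (Ioc u v).filter (fun i : ℕ => 2 ≤ s * qv a b c i) =
      (Ioc u κ).filter (fun i : ℕ => 2 ≤ s * qv a b c i) ∪ (Ioc κ v).filter (fun i : ℕ => 2 ≤ s * qv a b c i) := by
    rw [← filter_union, Ioc_union_Ioc_eq_Ioc huκ hκv]
  have hdis : Disjoint ((Ioc u κ).filter (fun i : ℕ => 2 ≤ s * qv a b c i)) ((Ioc κ v).filter (fun i : ℕ => 2 ≤ s * qv a b c i)) := by
    apply disjoint_filter_filter
    rw [disjoint_left]
    intro i h1 h2
    rw [mem_Ioc] at h1 h2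
    omega
  rw [hsplit, sum_union hdis, sum_union hdis]
  have hleft : |∑ i ∈ (Ioc u κ).filter (fun i : ℕ => 2 ≤ s * qv a b c i), wt (s * qv a b c i).toNat * β i| ≤
      (1 / 2 : ℝ) ^ k * RR a b c z * ∑ i ∈ (Ioc u κ).filter (fun i : ℕ => 2 ≤ s * qv a b c i), wt (s * qv a b c i).toNat +
        (z : ℝ) ^ (C1 * k + 1) * (3 / 2) := by
    have hd : ∀ i, u < i → i < κ → qv a b c ((i + 1 : ℕ) : ℤ) ≤ qv a b c (i : ℤ) := by
      intro i h1 h2
      have h3 := hstep i
      have h4 := hn2 i (by omega)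
      linarith
    rcases hs with h1 | h1
    · exact seg_anti (fun i => s * qv a b c i) β u κ (by
        intro i h2 h3
        have := hd i h2 h3
        simp only [h1, one_mul]
        exact this) _ _ hδ hR2 (fun i j _ h3 _ => hb i j h3)
    · exact seg_mono (fun i => s * qv a b c i) β u κ (by
        intro i h2 h3
        have := hd i h2 h3
        simp only [h1]
        linarith) _ _ hδ hR2 (fun i j _ h3 _ => hb i j h3)
  have hright : |∑ i ∈ (Ioc κ v).filter (fun i : ℕ => 2 ≤ s * qv a b c i), wt (s * qv a b c i).toNat * β i| ≤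
      (1 / 2 : ℝ) ^ k * RR a b c z * ∑ i ∈ (Ioc κ v).filter (fun i : ℕ => 2 ≤ s * qv a b c i), wt (s * qv a b c i).toNat +
        (z : ℝ) ^ (C1 * k + 1) * (3 / 2) := by
    have hd : ∀ i, κ < i → i < v → qv a b c (i : ℤ) ≤ qv a b c ((i + 1 : ℕ) : ℤ) := by
      intro i h1 h2
      have h3 := hstep i
      have h4 := hn1 i (by omega)
      linarith
    rcases hs with h1 | h1
    · exact seg_mono (fun i => s * qv a b c i) β κ v (by
        intro i h2 h3
        have := hd i h2 h3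
        simp only [h1, one_mul]
        exact this) _ _ hδ hR2 (fun i j _ h3 _ => hb i j h3)
    · exact seg_anti (fun i => s * qv a b c i) β κ v (by
        intro i h2 h3
        have := hd i h2 h3
        simp only [h1]
        linarith) _ _ hδ hR2 (fun i j _ h3 _ => hb i j h3)
  refine (abs_add_le _ _).trans ?_
  rw [mul_add]
  linarith

end Run7.h373.QW
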