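import Pool.Agent.Run7.h385.CR.Wey

/-!
# Project QW: Weyl's inequality for quadratic polynomials in a window, uniformly in the middle coefficient
-/

set_option autoImplicit false

namespace Run7.h373.QW

open Finset
open Pool.Agent.H469R2.NK (e norm_e e_add conj_e)
open Pool.Agent.H807R2.Dav (ee KK geo_bound KK_nonneg vino)
open Run7.h385.CR (ee_eq_e)

lemma diff_sum (A : ℕ) (b : ℤ) (α : ℝ) (m l M : ℕ) (H : ℝ) (hM : (M : ℝ) ≤ H) :
    ‖∑ n ∈ range M, e (α * ((A : ℝ) * ((m + 1 + (n + l) : ℕ) : ℝ) ^ 2 + b * ((m + 1 + (n + l) : ℕ) : ℝ))) *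
      (starRingEnd ℂ) (e (α * ((A : ℝ) * ((m + 1 + n : ℕ) : ℝ) ^ 2 + b * ((m + 1 + n : ℕ) : ℝ))))‖ ≤
      KK H (0 + ((2 * A * l : ℕ) : ℝ) * α) := by
  have h1 : ∀ n ∈ range M,
      e (α * ((A : ℝ) * ((m + 1 + (n + l) : ℕ) : ℝ) ^ 2 + b * ((m + 1 + (n + l) : ℕ) : ℝ))) *
      (starRingEnd ℂ) (e (α * ((A : ℝ) * ((m + 1 + n : ℕ) : ℝ) ^ 2 + b * ((m + 1 + n : ℕ) : ℝ)))) =
      e (α * (A * l ^ 2 + 2 * A * l * (m + 1) + b * l)) * ee (n * (((2 * A * l : ℕ) : ℝ) * α)) := by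
    intro n _
    rw [ee_eq_e, conj_e, ← e_add, ← e_add]
    congr 1
    push_cast
    ring
  rw [sum_congr rfl h1, ← mul_sum, norm_mul, norm_e, one_mul, zero_add, range_eq_Ico]
  exact geo_bound 0 M (Nat.zero_le _) (by simpa using hM) _

theorem wey (A : ℕ) (hA : 1 ≤ A) (b : ℤ) (m H q : ℕ) (a : ℤ) (α : ℝ) (hH : 1 ≤ H) (hq : 1 ≤ q)
    (hcop : IsCoprime a (q : ℤ)) (hα : |α - a / q| ≤ 1 / (q : ℝ) ^ 2) :
    ‖∑ n ∈ Ioc m (m + H), e (α * ((A : ℝ) * (n : ℝ) ^ 2 + b * n))‖ ^ 2 ≤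
      156 * A * ((H : ℝ) ^ 2 / q + H + q) * (1 + Real.log q) := by
  have hq0 : (0 : ℝ) < q := by exact_mod_cast hq
  have hq1 : (1 : ℝ) ≤ q := by exact_mod_cast hq
  have hA1 : (1 : ℝ) ≤ A := by exact_mod_cast hA
  have hlq : 0 ≤ Real.log q := Real.log_nonneg hq1
  have hH0 : (0 : ℝ) < H := by exact_mod_cast hH
  have e1 : ∑ n ∈ Ioc m (m + H), e (α * ((A : ℝ) * (n : ℝ) ^ 2 + b * n)) =
      ∑ n ∈ range H, e (α * ((A : ℝ) * ((m + 1 + n : ℕ) : ℝ) ^ 2 + b * ((m + 1 + n : ℕ) : ℝ))) := by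
    have : Ioc m (m + H) = Ico (m + 1) (m + 1 + H) := by
      ext x; simp only [mem_Ioc, mem_Ico]; omega
    rw [this, sum_Ico_eq_sum_range]
    simp
  rw [e1]
  have hv := Pool.Agent.Helper170.Weyl.vdc
    (fun n => e (α * ((A : ℝ) * ((m + 1 + n : ℕ) : ℝ) ^ 2 + b * ((m + 1 + n : ℕ) : ℝ))))
    (fun n => norm_e _) H
  refine hv.trans ?_
  have h2 : ∑ l ∈ Ico 1 H, ‖∑ n ∈ range (H - l),
      e (α * ((A : ℝ) * ((m + 1 + (n + l) : ℕ) : ℝ) ^ 2 + b * ((m + 1 + (n + l) : ℕ) : ℝ))) *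
      (starRingEnd ℂ) (e (α * ((A : ℝ) * ((m + 1 + n : ℕ) : ℝ) ^ 2 + b * ((m + 1 + n : ℕ) : ℝ))))‖ ≤
      (((2 * A * H : ℕ) : ℝ) / q + 1) * (39 * (H : ℝ) + 3 * q * (1 + Real.log q)) := by
    calc _ ≤ ∑ l ∈ Ico 1 H, KK H (0 + ((2 * A * l : ℕ) : ℝ) * α) := by
          refine sum_le_sum fun l _ => diff_sum A b α m l (H - l) H ?_
          exact_mod_cast Nat.sub_le _ _
      _ = ∑ k ∈ ((Ico 1 H).image (fun l : ℕ => 2 * A * l) : Finset ℕ), KK H (0 + ((k : ℕ) : ℝ) * α) := by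
          rw [sum_image]
          intro x _ y _ hxy
          simp only at hxy
          exact Nat.eq_of_mul_eq_mul_left (by positivity) hxy
      _ ≤ ∑ k ∈ range (2 * A * H), KK H (0 + (k : ℝ) * α) := by
          apply sum_le_sum_of_subset_of_nonneg
          · intro k hk
            obtain ⟨l, hl, rfl⟩ := mem_image.1 hk
            rw [mem_Ico] at hl
            rw [mem_range]
            exact Nat.mul_lt_mul_of_pos_left hl.2 (by positivity)
          · intro k _ _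
            exact KK_nonneg hH0.le _
      _ ≤ _ := vino hq hcop hα hH0.le 0 (2 * A * H)
  have h3 : (H : ℝ) + 2 * ((((2 * A * H : ℕ) : ℝ) / q + 1) * (39 * (H : ℝ) + 3 * q * (1 + Real.log q))) =
      156 * A * ((H : ℝ) ^ 2 / q) + H * (79 + 12 * A * (1 + Real.log q)) + 6 * q * (1 + Real.log q) := by
    push_cast
    field_simp
    ring
  calc _ ≤ (H : ℝ) + 2 * ((((2 * A * H : ℕ) : ℝ) / q + 1) * (39 * (H : ℝ) + 3 * q * (1 + Real.log q))) := by
        linarith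
    _ ≤ _ := by
        rw [h3]
        have t1 : 0 ≤ (A : ℝ) * ((H : ℝ) ^ 2 / q) := by positivity
        have t2 : 156 * A * ((H : ℝ) ^ 2 / q) ≤ 156 * A * ((H : ℝ) ^ 2 / q) * (1 + Real.log q) := by
          nlinarith
        have t5 : (79 : ℝ) ≤ 79 * (A * (1 + Real.log q)) := by
          have : (1 : ℝ) ≤ A * (1 + Real.log q) := by nlinarith
          linarith
        have t3 : (H : ℝ) * (79 + 12 * A * (1 + Real.log q)) ≤ 156 * A * H * (1 + Real.log q) := by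
          have t6 : 79 + 12 * A * (1 + Real.log q) ≤ 156 * (A * (1 + Real.log q)) := by nlinarith
          calc _ ≤ (H : ℝ) * (156 * (A * (1 + Real.log q))) := mul_le_mul_of_nonneg_left t6 hH0.le
            _ = _ := by ring
        have t4 : 6 * (q : ℝ) * (1 + Real.log q) ≤ 156 * A * q * (1 + Real.log q) := by
          have t7 : (q : ℝ) * (1 + Real.log q) ≤ A * (q * (1 + Real.log q)) :=
            le_mul_of_one_le_left (by positivity) hA1
          nlinarith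
        nlinarith

end Run7.h373.QW
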