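import Pool.Agent.Run7.h385.CR.MomC
import Pool.Agent.Run7.h373.QW.Wey

/-!
# Project QW: the second moment over the constant term, for all quadratics `a n² + b n + c`
-/

set_option autoImplicit false
set_option maxHeartbeats 4000000

namespace Run7.h373.QW

open Finset MeasureTheory
open Pool.Agent.H469R2.NK (e norm_e e_add conj_e e_zero)
open Pool.Agent.TH892.SW (ff sq_ff)
open Pool.Agent.H373R2.T7 (ev_log')
open Run7.h385.CR (FF FF_cont FF_sq arcs one_arc bess e_cont ev_lge final_ineq)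
open Run7.h757.CR (S_FI)

/-- the exponential sum of the quadratic polynomial in a window -/
noncomputable def WQ (A : ℕ) (b : ℤ) (m H : ℕ) (α : ℝ) : ℂ := ∑ n ∈ Ioc m (m + H), e (α * ((A : ℝ) * (n : ℝ) ^ 2 + b * n))

lemma WQ_cont (A : ℕ) (b : ℤ) (m H : ℕ) : Continuous (WQ A b m H) := by
  unfold WQ
  refine continuous_finsetSum _ fun n _ => ?_
  exact e_cont.comp (by fun_prop : Continuous fun β : ℝ => β * ((A : ℝ) * (n : ℝ) ^ 2 + b * n))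

lemma WQ_le (A : ℕ) (b : ℤ) (m H : ℕ) (α : ℝ) : ‖WQ A b m H α‖ ≤ H := by
  unfold WQ
  refine (norm_sum_le _ _).trans ?_
  simp [norm_e]

lemma WQ_neg (A : ℕ) (b : ℤ) (m H : ℕ) (α : ℝ) : ‖WQ A b m H (-α)‖ = ‖WQ A b m H α‖ := by
  have : WQ A b m H (-α) = (starRingEnd ℂ) (WQ A b m H α) := by
    unfold WQ
    rw [map_sum]
    refine sum_congr rfl fun n _ => ?_
    rw [conj_e]; congr 1; ring
  rw [this, RCLike.norm_conj]

/-- the second moment over `c` is bounded by an integral over the circle -/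
theorem circle (A : ℕ) (b : ℤ) (g : ℤ → ℝ) (hg : ∀ v, v ≤ 0 → g v = 0) (X K m H : ℕ) (s : ℤ) (hs : s = 1 ∨ s = -1)
    (hK : ∀ c ∈ Icc (-(X : ℤ)) X, ∀ n ∈ Ioc m (m + H), s * ((A : ℤ) * (n : ℤ) ^ 2 + b * n + c) ≤ K) :
    ∑ c ∈ Icc (-(X : ℤ)) X, (∑ n ∈ Ioc m (m + H), g (s * ((A : ℤ) * (n : ℤ) ^ 2 + b * n + c))) ^ 2 ≤
      ∫ α in (0 : ℝ)..1, ‖FF g K α‖ ^ 2 * ‖WQ A b m H α‖ ^ 2 := by
  have hss : s * s = 1 := by rcases hs with h | h <;> rw [h] <;> norm_num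
  have h1 := bess (Icc 1 K ×ˢ Ioc m (m + H)) (fun p => (p.1 : ℤ) - s * ((A : ℤ) * (p.2 : ℤ) ^ 2 + b * (p.2 : ℤ)))
    (fun p => ((g (p.1 : ℤ) : ℝ) : ℂ)) (Icc (-(X : ℤ)) X)
  have h2 : ∀ α : ℝ, ‖∑ p ∈ Icc 1 K ×ˢ Ioc m (m + H), ((g (p.1 : ℤ) : ℝ) : ℂ) *
      e ((((p.1 : ℤ) - s * ((A : ℤ) * (p.2 : ℤ) ^ 2 + b * (p.2 : ℤ)) : ℤ) : ℝ) * α)‖ ^ 2 =
      ‖FF g K α‖ ^ 2 * ‖WQ A b m H α‖ ^ 2 := by
    intro α
    have e1 : ∑ p ∈ Icc 1 K ×ˢ Ioc m (m + H), ((g (p.1 : ℤ) : ℝ) : ℂ) *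
      e ((((p.1 : ℤ) - s * ((A : ℤ) * (p.2 : ℤ) ^ 2 + b * (p.2 : ℤ)) : ℤ) : ℝ) * α) =
        FF g K α * WQ A b m H (-(s : ℝ) * α) := by
      unfold FF WQ
      rw [sum_mul_sum, sum_product]
      refine sum_congr rfl fun k _ => sum_congr rfl fun n _ => ?_
      rw [mul_assoc, ← e_add]
      congr 2
      push_cast
      ring
    rw [e1, norm_mul, mul_pow]
    congr 2
    rcases hs with h | h
    · rw [h]
      have : -((1 : ℤ) : ℝ) * α = -α := by push_cast; ring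
      rw [this, WQ_neg]
    · rw [h]
      have : -((-1 : ℤ) : ℝ) * α = α := by push_cast; ring
      rw [this]
  simp only [h2] at h1
  refine le_trans (le_of_eq ?_) h1
  refine sum_bij' (fun a _ => s * a) (fun a _ => s * a) ?_ ?_ ?_ ?_ ?_
  · intro a ha
    rw [mem_Icc] at ha ⊢
    rcases hs with h | h <;> rw [h] <;> constructor <;> linarith [ha.1, ha.2]
  · intro a ha
    rw [mem_Icc] at ha ⊢
    rcases hs with h | h <;> rw [h] <;> constructor <;> linarith [ha.1, ha.2]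
  · intro a _
    rw [← mul_assoc, hss, one_mul]
  · intro a _
    rw [← mul_assoc, hss, one_mul]
  · intro a ha
    have h3 : ∑ p ∈ (Icc 1 K ×ˢ Ioc m (m + H)).filter
          (fun p => (p.1 : ℤ) - s * ((A : ℤ) * (p.2 : ℤ) ^ 2 + b * (p.2 : ℤ)) = s * a),
        ((g (p.1 : ℤ) : ℝ) : ℂ) = ((∑ n ∈ Ioc m (m + H), g (s * ((A : ℤ) * (n : ℤ) ^ 2 + b * n + a)) : ℝ) : ℂ) := by
      have e1 : ∑ n ∈ Ioc m (m + H), g (s * ((A : ℤ) * (n : ℤ) ^ 2 + b * n + a)) =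
          ∑ n ∈ (Ioc m (m + H)).filter (fun n : ℕ => 1 ≤ s * ((A : ℤ) * (n : ℤ) ^ 2 + b * n + a)),
            g (s * ((A : ℤ) * (n : ℤ) ^ 2 + b * n + a)) := by
        rw [sum_filter]
        refine sum_congr rfl fun n _ => ?_
        split_ifs with h
        · rfl
        · exact hg _ (by omega)
      rw [e1]
      push_cast
      refine sum_bij' (fun p _ => p.2) (fun n _ => ((s * ((A : ℤ) * (n : ℤ) ^ 2 + b * n + a)).toNat, n)) ?_ ?_ ?_ ?_ ?_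
      · intro p hp
        simp only [mem_filter, mem_product, mem_Icc] at hp ⊢
        refine ⟨hp.1.2, ?_⟩
        have : s * ((A : ℤ) * (p.2 : ℤ) ^ 2 + b * p.2 + a) = p.1 := by
          linarith [hp.2, mul_add s ((A : ℤ) * (p.2 : ℤ) ^ 2 + b * p.2) a]
        rw [this]
        have := hp.1.1.1
        omega
      · intro n hn
        simp only [mem_filter, mem_product, mem_Icc] at hn ⊢
        have hk := hK a ha n hn.1
        have h4 : (((s * ((A : ℤ) * (n : ℤ) ^ 2 + b * n + a)).toNat : ℕ) : ℤ) = s * ((A : ℤ) * (n : ℤ) ^ 2 + b * n + a) :=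
          Int.toNat_of_nonneg (by linarith [hn.2])
        refine ⟨⟨⟨?_, ?_⟩, hn.1⟩, ?_⟩
        · omega
        · omega
        · rw [h4]; ring
      · intro p hp
        simp only [mem_filter, mem_product, mem_Icc] at hp
        have : s * ((A : ℤ) * (p.2 : ℤ) ^ 2 + b * p.2 + a) = p.1 := by
          linarith [hp.2, mul_add s ((A : ℤ) * (p.2 : ℤ) ^ 2 + b * p.2) a]
        ext
        · simp only [this]
          simp
        · rfl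
      · intro n _
        rfl
      · intro p hp
        simp only [mem_filter, mem_product, mem_Icc] at hp
        have : s * ((A : ℤ) * (p.2 : ℤ) ^ 2 + b * p.2 + a) = p.1 := by
          linarith [hp.2, mul_add s ((A : ℤ) * (p.2 : ℤ) ^ 2 + b * p.2) a]
        simp only [this]
    rw [h3, Complex.norm_real, Real.norm_eq_abs, sq_abs]

/-- the second moment, without the choice of the parameters -/
theorem core (A : ℕ) (hA : 1 ≤ A) (b : ℤ)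
    (g : ℤ → ℝ) (hg : ∀ v, v ≤ 0 → g v = 0) (G0 : ℝ) (hG : ∀ v, |g v| ≤ G0)
    (X K m H Y Q q₀ x₀ : ℕ) (s : ℤ) (hs : s = 1 ∨ s = -1)
    (hK : ∀ c ∈ Icc (-(X : ℤ)) X, ∀ n ∈ Ioc m (m + H), s * ((A : ℤ) * (n : ℤ) ^ 2 + b * n + c) ≤ K)
    (hH : 1 ≤ H) (hQ : 1 ≤ Q)
    (hY : 1 ≤ Y) (hYQ : 2 * Y ≤ Q + 1) (hx₀ : 1 ≤ x₀) (v : ℝ) (hv : 0 ≤ v)
    (hV : ∀ q, 1 ≤ q → q ≤ q₀ → ∀ a x : ℕ, x₀ ≤ x → x < K →
      ∑ m ∈ Ioc x (2 * x), ‖∑ n ∈ Ioc m (m + Y), (g (n : ℤ) : ℂ) * e ((a : ℝ) * n / q)‖ ^ 2 ≤ x * (Y : ℝ) ^ 2 * v) :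
    ∑ c ∈ Icc (-(X : ℤ)) X, (∑ n ∈ Ioc m (m + H), g (s * ((A : ℤ) * (n : ℤ) ^ 2 + b * n + c))) ^ 2 ≤
      156 * A * ((H : ℝ) ^ 2 / (q₀ + 1) + H + Q) * (1 + Real.log Q) * (K * G0 ^ 2) +
      (H : ℝ) ^ 2 * (q₀ * (q₀ + 1)) * (3 * ((x₀ + 2 * Y + 1) * G0 ^ 2 + 2 * K * v)) := by
  have hG0 : 0 ≤ G0 := (abs_nonneg _).trans (hG 0)
  refine (circle A b g hg X K m H s hs hK).trans ?_
  have hQr : (1 : ℝ) ≤ Q := by exact_mod_cast hQ
  have hlQ : 0 ≤ Real.log Q := Real.log_nonneg hQr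
  set M : ℝ := 156 * A * ((H : ℝ) ^ 2 / (q₀ + 1) + H + Q) * (1 + Real.log Q) with hM
  have hM0 : 0 ≤ M := by positivity
  have h1 := arcs (FF g K) (WQ A b m H) (FF_cont g K) (WQ_cont A b m H) q₀ Q hQ M H hM0 (WQ_le A b m H) (by
    intro α q hq1 hq2 a hcop hα
    have h2 := wey A hA b m H q a α hH (by omega) hcop hα
    refine h2.trans ?_
    have hqr : (q : ℝ) ≤ Q := by exact_mod_cast hq2
    have hq1r : (q₀ : ℝ) + 1 ≤ q := by exact_mod_cast hq1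
    have hq1' : (1 : ℝ) ≤ q := by
      have : (0 : ℝ) ≤ q₀ := Nat.cast_nonneg _
      linarith
    have hlq : 0 ≤ Real.log q := Real.log_nonneg hq1'
    have hll : Real.log q ≤ Real.log Q := Real.log_le_log (by linarith) hqr
    rw [hM]
    gcongr)
  refine h1.trans ?_
  apply add_le_add
  · apply mul_le_mul_of_nonneg_left _ hM0
    rw [FF_sq]
    calc ∑ k ∈ Icc 1 K, g (k : ℤ) ^ 2 ≤ ∑ k ∈ Icc 1 K, G0 ^ 2 := by
          refine sum_le_sum fun k _ => ?_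
          rw [← sq_abs (g _)]
          exact pow_le_pow_left₀ (abs_nonneg _) (hG _) 2
      _ = K * G0 ^ 2 := by rw [sum_const, Nat.card_Icc, nsmul_eq_mul, Nat.add_sub_cancel]
  · rw [mul_assoc]
    apply mul_le_mul_of_nonneg_left _ (by positivity)
    set R : ℝ := 3 * ((x₀ + 2 * Y + 1) * G0 ^ 2 + 2 * K * v) with hR
    have hR0 : 0 ≤ R := by positivity
    calc ∑ q ∈ Icc 1 q₀, ∑ a ∈ range (q + 1),
          ∫ β in (-(1 / ((Q : ℝ) + 1)))..(1 / ((Q : ℝ) + 1)), ‖FF g K ((a : ℝ) / q + β)‖ ^ 2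
        ≤ ∑ q ∈ Icc 1 q₀, ∑ a ∈ range (q₀ + 1), R := by
          refine sum_le_sum fun q hq => ?_
          rw [mem_Icc] at hq
          refine (sum_le_sum (g := fun _ => R) fun a _ =>
            one_arc g G0 hG K Y Q x₀ q a hY hYQ hx₀ v hv (hV q hq.1 hq.2 a)).trans ?_
          apply sum_le_sum_of_subset_of_nonneg
          · exact range_subset_range.2 (by omega)
          · intro _ _ _
            exact hR0
      _ = q₀ * (q₀ + 1) * R := by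
          rw [sum_const, sum_const, Nat.card_Icc, card_range, nsmul_eq_mul, nsmul_eq_mul, Nat.add_sub_cancel]
          push_cast
          ring

/-- **the second moment over the constant term**, uniformly in the other two coefficients -/
theorem t1m (hFI : S_FI) : ∀ U C : ℕ, ∃ E1 : ℕ, ∀ E : ℕ, E1 ≤ E → ∃ B X₀ : ℕ, ∀ X : ℕ, X₀ ≤ X →
    ∀ (A : ℕ) (b : ℤ), 1 ≤ A → (A : ℝ) ≤ Real.log X ^ C → |(b : ℝ)| ≤ √X * Real.log X ^ C → ∀ m H : ℕ,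
    (X : ℝ) ^ (1 / 6 : ℝ) * Real.log X ^ B ≤ H → (m : ℝ) + H ≤ √X * Real.log X ^ C → ∀ s : ℤ, (s = 1 ∨ s = -1) →
    ∑ c ∈ Icc (-(X : ℤ)) X, (∑ n ∈ Ioc m (m + H), ff ⌊Real.log X ^ E⌋₊ (s * ((A : ℤ) * (n : ℤ) ^ 2 + b * n + c))) ^ 2 ≤
      X * (H : ℝ) ^ 2 / Real.log X ^ U := by
  intro U C
  obtain ⟨B₁, hB₁⟩ : ∃ B₁ : ℕ, B₁ = U + 4 * C + 4 := ⟨_, rfl⟩
  obtain ⟨D, hD⟩ : ∃ D : ℕ, D = B₁ + B₁ + U + 3 := ⟨_, rfl⟩
  obtain ⟨U', hU'⟩ : ∃ U' : ℕ, U' = B₁ + B₁ + 4 * C + U + 1 := ⟨_, rfl⟩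
  obtain ⟨CF, hCF⟩ := hFI (B₁ + 1) U'
  obtain ⟨B₂, hB₂⟩ : ∃ B₂ : ℕ, B₂ = D + 2 * C + 2 * CF + 1 := ⟨_, rfl⟩
  refine ⟨B₁, fun E hE => ?_⟩
  obtain ⟨XF, hXF⟩ := hCF (E + 1)
  obtain ⟨N2, hsq⟩ := sq_ff E
  obtain ⟨B, hB⟩ : ∃ B : ℕ, B = B₂ + 2 * C + 2 * CF + 2 := ⟨_, rfl⟩
  obtain ⟨x1, hx1⟩ := ev_lge (972 * 208 + 432 + 36 * (2 * 2 ^ U') + 2 ^ (B₁ + 1) + 2 ^ (E + 1) + 10)
  obtain ⟨x2, hx2⟩ := ev_log' D 1
  obtain ⟨x3, hx3⟩ := ev_log' (3 * C) 4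
  refine ⟨B, max (max (x1 + x2) (x3 + XF ^ 2)) (N2 + 1), fun X hX A b hA1 hA2 hb m H hH1 hH2 s hs => ?_⟩
  have hXx1 : x1 ≤ X := by
    have := (le_max_left _ _).trans ((le_max_left _ _).trans hX); omega
  have hXx2 : x2 ≤ X := by
    have := (le_max_left _ _).trans ((le_max_left _ _).trans hX); omega
  have hXx3 : x3 ≤ X := by
    have := (le_max_right _ _).trans ((le_max_left _ _).trans hX); omega
  have hXXF : XF ^ 2 ≤ X := by
    have := (le_max_right _ _).trans ((le_max_left _ _).trans hX); omega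
  have hXN2 : N2 + 1 ≤ X := (le_max_right _ _).trans hX
  have hLbig := hx1 X hXx1
  have hLD := hx2 X hXx2
  have hLC := hx3 X hXx3
  rw [one_mul] at hLD
  set L := Real.log X with hLdef
  have p1 : (0 : ℝ) < 2 ^ U' := by positivity
  have p2 : (0 : ℝ) < 2 ^ (B₁ + 1) := by positivity
  have p3 : (0 : ℝ) < 2 ^ (E + 1) := by positivity
  have hL10 : 10 ≤ L := by nlinarith
  have hL0 : 0 < L := by linarith
  have hL1 : 1 ≤ L := by linarith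
  have hLp : ∀ n : ℕ, 0 < L ^ n := fun n => by positivity
  have hLp1 : ∀ n : ℕ, 1 ≤ L ^ n := fun n => one_le_pow₀ hL1
  have hLmono : ∀ {i j : ℕ}, i ≤ j → L ^ i ≤ L ^ j := fun h => pow_le_pow_right₀ hL1 h
  have hX1 : (1 : ℝ) ≤ X := by exact_mod_cast (by omega : 1 ≤ X)
  have hX0 : (0 : ℝ) < X := by linarith
  have hsX : √(X : ℝ) * √(X : ℝ) = X := Real.mul_self_sqrt hX0.le
  have hsX0 : 0 < √(X : ℝ) := Real.sqrt_pos.2 hX0
  have hsX1 : 1 ≤ √(X : ℝ) := by rw [Real.one_le_sqrt]; exact hX1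
  have hAr1 : (1 : ℝ) ≤ A := by exact_mod_cast hA1
  -- H
  have h6 : (1 : ℝ) ≤ (X : ℝ) ^ (1 / 6 : ℝ) := Real.one_le_rpow hX1 (by norm_num)
  have hHB : L ^ B ≤ H := by
    calc L ^ B = 1 * L ^ B := by ring
      _ ≤ (X : ℝ) ^ (1 / 6 : ℝ) * L ^ B := by gcongr
      _ ≤ H := hH1
  have hHr1 : (1 : ℝ) ≤ H := (hLp1 B).trans hHB
  have hH0 : (0 : ℝ) < H := by linarith
  have hHn : 1 ≤ H := by exact_mod_cast hHr1
  have h3 : (X : ℝ) ^ (1 / 3 : ℝ) * L ^ (2 * B) ≤ (H : ℝ) ^ 2 := by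
    have e1 : (X : ℝ) ^ (1 / 3 : ℝ) = ((X : ℝ) ^ (1 / 6 : ℝ)) ^ 2 := by
      rw [← Real.rpow_natCast, ← Real.rpow_mul hX0.le]; norm_num
    calc (X : ℝ) ^ (1 / 3 : ℝ) * L ^ (2 * B) = ((X : ℝ) ^ (1 / 6 : ℝ) * L ^ B) ^ 2 := by
          rw [e1, mul_pow, ← pow_mul]; ring
      _ ≤ (H : ℝ) ^ 2 := by gcongr
  have hHle : (H : ℝ) ≤ √X * L ^ C := by
    have : (0 : ℝ) ≤ m := Nat.cast_nonneg m
    linarith
  have hHsq : (H : ℝ) ^ 2 ≤ X * L ^ (2 * C) := by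
    calc (H : ℝ) ^ 2 ≤ (√X * L ^ C) ^ 2 := by gcongr
      _ = (√X * √X) * L ^ (2 * C) := by ring
      _ = _ := by rw [hsX]
  -- K
  set K : ℕ := ⌈3 * (X : ℝ) * L ^ (3 * C)⌉₊ with hKdef
  have hK1 : 3 * (X : ℝ) * L ^ (3 * C) ≤ K := Nat.le_ceil _
  have hXLC : (X : ℝ) ≤ X * L ^ (3 * C) := le_mul_of_one_le_right hX0.le (hLp1 _)
  have hK2 : (K : ℝ) ≤ 4 * X * L ^ (3 * C) := by
    have h1 : (K : ℝ) < 3 * (X : ℝ) * L ^ (3 * C) + 1 := Nat.ceil_lt_add_one (by positivity)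
    linarith
  have hXK : (X : ℝ) ≤ K := by linarith
  have hK0 : (0 : ℝ) < K := by linarith
  have hKX2 : (K : ℝ) ≤ X * √X := by
    calc (K : ℝ) ≤ 4 * X * L ^ (3 * C) := hK2
      _ = X * (4 * L ^ (3 * C)) := by ring
      _ ≤ X * √X := by gcongr
  have hlogK1 : L ≤ Real.log K := Real.log_le_log hX0 hXK
  have hlogK2 : Real.log K ≤ 2 * L := by
    have h1 : (K : ℝ) ≤ (X : ℝ) ^ 2 := by
      calc (K : ℝ) ≤ X * √X := hKX2
        _ ≤ X * (√X * √X) := by gcongr; nlinarith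
        _ = X ^ 2 := by rw [hsX]; ring
    have h2 := Real.log_le_log hK0 h1
    rw [Real.log_pow] at h2
    push_cast at h2
    exact h2
  -- z
  set z : ℕ := ⌊L ^ E⌋₊ with hz
  have hz1 : 1 ≤ z := by
    rw [hz]; exact Nat.le_floor (by push_cast; exact hLp1 E)
  have hz2 : (z : ℝ) ≤ L ^ E := Nat.floor_le (hLp E).le
  obtain ⟨hG, -⟩ := hsq K (by exact_mod_cast (by
    have : (N2 : ℝ) + 1 ≤ X := by exact_mod_cast hXN2
    linarith : (N2 : ℝ) ≤ K)) z hz1 (hz2.trans (pow_le_pow_left₀ hL0.le hlogK1 E))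
  have hG0 : ∀ y : ℤ, |ff z y| ≤ 6 * L := fun y => (hG y).trans (by linarith)
  -- the parameters
  set q₀ : ℕ := ⌊L ^ B₁⌋₊ with hq₀
  set Q : ℕ := ⌊(H : ℝ) ^ 2 / L ^ B₁⌋₊ with hQ
  set Y : ℕ := ⌊(H : ℝ) ^ 2 / L ^ B₂⌋₊ with hY
  set x₀ : ℕ := ⌈(X : ℝ) / L ^ D⌉₊ with hx₀
  have hq1 : (q₀ : ℝ) ≤ L ^ B₁ := Nat.floor_le (hLp _).le
  have hq2 : L ^ B₁ ≤ (q₀ : ℝ) + 1 := (Nat.lt_floor_add_one _).le
  have hQ1 : (Q : ℝ) ≤ (H : ℝ) ^ 2 / L ^ B₁ := Nat.floor_le (by positivity)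
  have hQ2 : (H : ℝ) ^ 2 / L ^ B₁ ≤ Q + 1 := (Nat.lt_floor_add_one _).le
  have hY1 : (Y : ℝ) ≤ (H : ℝ) ^ 2 / L ^ B₂ := Nat.floor_le (by positivity)
  have hY2 : (H : ℝ) ^ 2 / L ^ B₂ ≤ Y + 1 := (Nat.lt_floor_add_one _).le
  have hx₀1 : (X : ℝ) / L ^ D ≤ x₀ := Nat.le_ceil _
  have hx₀2 : (x₀ : ℝ) ≤ X / L ^ D + 1 := (Nat.ceil_lt_add_one (by positivity)).le
  have hHH : (H : ℝ) ≤ (H : ℝ) ^ 2 / L ^ B₁ := by
    rw [le_div_iff₀ (hLp _), sq]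
    apply mul_le_mul_of_nonneg_left _ hH0.le
    exact (hLmono (by omega)).trans hHB
  have hQn : 1 ≤ Q := by
    rw [hQ]
    apply Nat.le_floor
    push_cast
    linarith
  -- lower bound for Y
  have hYlow : (X : ℝ) ^ (1 / 3 : ℝ) * L ^ (2 * B - B₂ - 1) ≤ Y := by
    have e1 : L ^ (2 * B) = L ^ (2 * B - B₂ - 1) * L * L ^ B₂ := by
      rw [← pow_succ, ← pow_add]; congr 1; omega
    rw [e1] at h3
    have h4 : (X : ℝ) ^ (1 / 3 : ℝ) * (L ^ (2 * B - B₂ - 1) * L) ≤ (H : ℝ) ^ 2 / L ^ B₂ := by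
      rw [le_div_iff₀ (hLp _)]
      calc _ = (X : ℝ) ^ (1 / 3 : ℝ) * (L ^ (2 * B - B₂ - 1) * L * L ^ B₂) := by ring
        _ ≤ _ := h3
    have h5 : 1 ≤ (X : ℝ) ^ (1 / 3 : ℝ) * L ^ (2 * B - B₂ - 1) := by
      have h51 : (1 : ℝ) ≤ (X : ℝ) ^ (1 / 3 : ℝ) := Real.one_le_rpow hX1 (by norm_num)
      calc (1 : ℝ) = 1 * 1 := by ring
        _ ≤ _ := by gcongr; exact hLp1 _
    have h6 : (X : ℝ) ^ (1 / 3 : ℝ) * L ^ (2 * B - B₂ - 1) * 10 ≤ (X : ℝ) ^ (1 / 3 : ℝ) * L ^ (2 * B - B₂ - 1) * L := by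
      gcongr
    have h7 : (X : ℝ) ^ (1 / 3 : ℝ) * (L ^ (2 * B - B₂ - 1) * L) = (X : ℝ) ^ (1 / 3 : ℝ) * L ^ (2 * B - B₂ - 1) * L := by ring
    linarith
  have hYr1 : (1 : ℝ) ≤ Y := by
    have h51 : (1 : ℝ) ≤ (X : ℝ) ^ (1 / 3 : ℝ) := Real.one_le_rpow hX1 (by norm_num)
    calc (1 : ℝ) = 1 * 1 := by ring
      _ ≤ (X : ℝ) ^ (1 / 3 : ℝ) * L ^ (2 * B - B₂ - 1) := by gcongr; exact hLp1 _
      _ ≤ Y := hYlow
  have hYn : 1 ≤ Y := by exact_mod_cast hYr1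
  -- upper bound for Y
  have hYup : (Y : ℝ) * L ^ (2 * CF) * L ≤ X / L ^ D := by
    have e1 : L ^ B₂ = L ^ (2 * CF) * L * L ^ D * L ^ (2 * C) := by
      rw [hB₂]; ring
    rw [le_div_iff₀ (hLp _)]
    calc (Y : ℝ) * L ^ (2 * CF) * L * L ^ D ≤ ((H : ℝ) ^ 2 / L ^ B₂) * L ^ (2 * CF) * L * L ^ D := by gcongr
      _ ≤ (X * L ^ (2 * C) / L ^ B₂) * L ^ (2 * CF) * L * L ^ D := by gcongr
      _ = X := by rw [e1]; field_simp
  have hYY : 2 * Y ≤ Q + 1 := by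
    have h1 : 2 * (Y : ℝ) ≤ (H : ℝ) ^ 2 / L ^ B₁ := by
      have e1 : L ^ B₂ = L ^ B₁ * (L * L ^ (B₂ - B₁ - 1)) := by
        rw [← pow_succ', ← pow_add]; congr 1; omega
      have h2 : (2 : ℝ) ≤ L * L ^ (B₂ - B₁ - 1) := by
        have := hLp1 (B₂ - B₁ - 1)
        nlinarith
      calc 2 * (Y : ℝ) ≤ (L * L ^ (B₂ - B₁ - 1)) * ((H : ℝ) ^ 2 / L ^ B₂) := by gcongr
        _ = (H : ℝ) ^ 2 / L ^ B₁ := by rw [e1]; field_simp
    have h2 : (2 * (Y : ℝ)) ≤ Q + 1 := h1.trans hQ2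
    exact_mod_cast h2
  have hx₀s : √(X : ℝ) ≤ x₀ := by
    refine le_trans ?_ hx₀1
    rw [le_div_iff₀ (hLp _)]
    calc √(X : ℝ) * L ^ D ≤ √X * √X := by gcongr
      _ = X := hsX
  have hx₀n : 1 ≤ x₀ := by
    have : (1 : ℝ) ≤ x₀ := hsX1.trans hx₀s
    exact_mod_cast this
  -- the values
  have hval : ∀ c ∈ Icc (-(X : ℤ)) X, ∀ n ∈ Ioc m (m + H), s * ((A : ℤ) * (n : ℤ) ^ 2 + b * n + c) ≤ K := by
    intro a ha n hn
    rw [mem_Icc] at ha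
    rw [mem_Ioc] at hn
    have hn1 : (n : ℝ) ≤ √X * L ^ C := by
      have : (n : ℝ) ≤ m + H := by exact_mod_cast hn.2
      linarith
    have hn2 : (n : ℝ) ^ 2 ≤ X * L ^ (2 * C) := by
      calc (n : ℝ) ^ 2 ≤ (√X * L ^ C) ^ 2 := by gcongr
        _ = (√X * √X) * L ^ (2 * C) := by ring
        _ = _ := by rw [hsX]
    have hn3 : (A : ℝ) * (n : ℝ) ^ 2 ≤ X * L ^ (3 * C) := by
      calc (A : ℝ) * (n : ℝ) ^ 2 ≤ L ^ C * (X * L ^ (2 * C)) := by gcongr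
        _ = _ := by rw [show 3 * C = C + 2 * C by ring, pow_add]; ring
    have hn0' : (0 : ℝ) ≤ n := Nat.cast_nonneg n
    have hb1 : |(b : ℝ) * n| ≤ X * L ^ (3 * C) := by
      rw [abs_mul, abs_of_nonneg hn0']
      calc |(b : ℝ)| * n ≤ (√X * L ^ C) * (√X * L ^ C) := by gcongr
        _ = (√X * √X) * L ^ (2 * C) := by ring
        _ = X * L ^ (2 * C) := by rw [hsX]
        _ ≤ X * L ^ (3 * C) := by gcongr <;> omega
    have ha1 : (a : ℝ) ≤ X := by exact_mod_cast ha.2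
    have ha2 : -(X : ℝ) ≤ a := by exact_mod_cast ha.1
    have hn0 : (0 : ℝ) ≤ (A : ℝ) * (n : ℝ) ^ 2 := by positivity
    have hb2 := abs_le.1 hb1
    have h1 : ((s * ((A : ℤ) * (n : ℤ) ^ 2 + b * n + a) : ℤ) : ℝ) ≤ K := by
      rcases hs with h | h
      · rw [h]; push_cast; linarith [hb2.1, hb2.2]
      · rw [h]; push_cast; linarith [hb2.1, hb2.2]
    exact_mod_cast h1
  -- the short windows
  have hv0 : (0 : ℝ) ≤ 2 ^ U' / L ^ U' := by positivity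
  have hV : ∀ q, 1 ≤ q → q ≤ q₀ → ∀ a x : ℕ, x₀ ≤ x → x < K →
      ∑ m ∈ Ioc x (2 * x), ‖∑ n ∈ Ioc m (m + Y), (ff z (n : ℤ) : ℂ) * e ((a : ℝ) * n / q)‖ ^ 2 ≤
        x * (Y : ℝ) ^ 2 * (2 ^ U' / L ^ U') := by
    intro q hqq1 hqq2 a x hxx1 hxx2
    have hxr1 : (x₀ : ℝ) ≤ x := by exact_mod_cast hxx1
    have hxr2 : (x : ℝ) ≤ K := by exact_mod_cast hxx2.le
    have hxs : √(X : ℝ) ≤ x := hx₀s.trans hxr1
    have hx0 : (0 : ℝ) < x := by linarith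
    have hlx1 : L / 2 ≤ Real.log x := by
      have h1 := Real.log_le_log hsX0 hxs
      rw [Real.log_sqrt hX0.le] at h1
      exact h1
    have hlx2 : Real.log x ≤ 2 * L := (Real.log_le_log hx0 hxr2).trans hlogK2
    have hlx0 : 0 < Real.log x := by linarith
    have hxXF : XF ≤ x := by
      have h1 : (XF : ℝ) ≤ √X := by
        apply Real.le_sqrt_of_sq_le
        exact_mod_cast hXXF
      exact_mod_cast h1.trans hxs
    have hpw : ∀ k : ℕ, (2 : ℝ) ^ (k + 1) ≤ L → L ^ k ≤ Real.log x ^ (k + 1) := by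
      intro k hk
      calc L ^ k ≤ (2 * Real.log x) ^ k := pow_le_pow_left₀ hL0.le (by linarith) k
        _ = 2 ^ k * Real.log x ^ k := mul_pow _ _ _
        _ ≤ Real.log x * Real.log x ^ k := by
            apply mul_le_mul_of_nonneg_right _ (by positivity)
            have : (2 : ℝ) ^ (k + 1) = 2 * 2 ^ k := by ring
            linarith
        _ = _ := by ring
    have hqr : (q : ℝ) ≤ L ^ B₁ := by
      have : (q : ℝ) ≤ q₀ := by exact_mod_cast hqq2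
      linarith
    have c1 : (q : ℝ) ≤ Real.log x ^ (B₁ + 1) := hqr.trans (hpw B₁ (by nlinarith))
    have c2 : q ≤ z := by
      rw [hz]
      exact Nat.le_floor (hqr.trans (hLmono hE))
    have c3 : (z : ℝ) ≤ Real.log x ^ (E + 1) := hz2.trans (hpw E (by nlinarith))
    have hlxC : Real.log x ^ CF ≤ L ^ (2 * CF) := by
      calc Real.log x ^ CF ≤ (L ^ 2) ^ CF := by
            apply pow_le_pow_left₀ hlx0.le
            nlinarith
        _ = _ := by rw [← pow_mul]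
    have c4 : (x : ℝ) ^ (1 / 3 : ℝ) * Real.log x ^ CF ≤ Y := by
      have h1 : (x : ℝ) ^ (1 / 3 : ℝ) ≤ (X : ℝ) ^ (1 / 3 : ℝ) * L ^ (3 * C + 1) := by
        have h2 : (x : ℝ) ≤ X * (L ^ (3 * C + 1)) ^ 3 := by
          calc (x : ℝ) ≤ 4 * X * L ^ (3 * C) := hxr2.trans hK2
            _ ≤ L * X * L ^ (3 * C) := by gcongr; linarith
            _ = X * L ^ (3 * C + 1) := by ring
            _ ≤ X * (L ^ (3 * C + 1)) ^ 3 := by
                gcongr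
                exact le_self_pow₀ (hLp1 _) (by norm_num)
        have h3 : (X : ℝ) * (L ^ (3 * C + 1)) ^ 3 = ((X : ℝ) ^ (1 / 3 : ℝ) * L ^ (3 * C + 1)) ^ 3 := by
          rw [mul_pow]
          congr 1
          rw [← Real.rpow_natCast, ← Real.rpow_mul hX0.le]
          norm_num
        rw [h3] at h2
        calc (x : ℝ) ^ (1 / 3 : ℝ) ≤ (((X : ℝ) ^ (1 / 3 : ℝ) * L ^ (3 * C + 1)) ^ 3) ^ (1 / 3 : ℝ) :=
              Real.rpow_le_rpow hx0.le h2 (by norm_num)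
          _ = _ := by
              rw [← Real.rpow_natCast, ← Real.rpow_mul (by positivity)]
              norm_num
      calc (x : ℝ) ^ (1 / 3 : ℝ) * Real.log x ^ CF ≤
            ((X : ℝ) ^ (1 / 3 : ℝ) * L ^ (3 * C + 1)) * L ^ (2 * CF) := by gcongr
        _ = (X : ℝ) ^ (1 / 3 : ℝ) * L ^ (3 * C + 1 + 2 * CF) := by rw [pow_add]; ring
        _ ≤ (X : ℝ) ^ (1 / 3 : ℝ) * L ^ (2 * B - B₂ - 1) := by
            apply mul_le_mul_of_nonneg_left _ (by positivity)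
            exact hLmono (by omega)
        _ ≤ Y := hYlow
    have c5 : (Y : ℝ) * Real.log x ^ CF ≤ x := by
      calc (Y : ℝ) * Real.log x ^ CF ≤ Y * L ^ (2 * CF) * 1 := by rw [mul_one]; gcongr
        _ ≤ Y * L ^ (2 * CF) * L := by gcongr
        _ ≤ X / L ^ D := hYup
        _ ≤ x := hx₀1.trans hxr1
    have h1 := hXF x hxXF z q hqq1 c1 c2 c3 a Y c4 c5
    refine h1.trans ?_
    rw [div_eq_mul_inv]
    apply mul_le_mul_of_nonneg_left _ (by positivity)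
    rw [inv_le_comm₀ (by positivity) (by positivity), inv_div]
    calc L ^ U' / 2 ^ U' = (L / 2) ^ U' := by rw [div_pow]
      _ ≤ Real.log x ^ U' := pow_le_pow_left₀ (by positivity) hlx1 _
  have hff0 : ∀ v : ℤ, v ≤ 0 → ff z v = 0 := by
    intro v hv
    unfold ff
    rw [if_neg (by omega)]
  have hcore := core A hA1 b (ff z) hff0 (6 * L) hG0 X K m H Y Q q₀ x₀ s hs hval hHn hQn hYn hYY hx₀n
    (2 ^ U' / L ^ U') hv0 hV
  refine hcore.trans ?_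
  refine final_ineq (Cw := 208) (L := L) (X := (X : ℝ)) (H := (H : ℝ)) (U := U) (B1 := B₁) (C2 := L ^ (4 * C)) (b := L ^ B₁) (d := L ^ D) (u' := L ^ U') (t := 2 * 2 ^ U')
    (by linarith) hL1 hX0.le rfl (hLp _) ?_ ?_ ?_ rfl ?_ ?_
  · rw [hB₁, pow_add, pow_add]
  · rw [hD, pow_add, pow_add, pow_add]
  · rw [hU', pow_add, pow_add, pow_add, pow_add, pow_one]
  · -- minor arcs
    have hlogQ : 1 + Real.log Q ≤ 3 * L := by
      have h1 : (Q : ℝ) ≤ K := by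
        calc (Q : ℝ) ≤ (H : ℝ) ^ 2 / L ^ B₁ := hQ1
          _ ≤ (H : ℝ) ^ 2 := div_le_self (by positivity) (hLp1 _)
          _ ≤ X * L ^ (2 * C) := hHsq
          _ ≤ X * L ^ (3 * C) := by gcongr <;> omega
          _ ≤ K := by linarith
      have h2 := Real.log_le_log (by exact_mod_cast hQn) h1
      linarith
    have h1 : (H : ℝ) ^ 2 / (q₀ + 1) + H + Q ≤ 3 * (H : ℝ) ^ 2 / L ^ B₁ := by
      have h2 : (H : ℝ) ^ 2 / (q₀ + 1) ≤ (H : ℝ) ^ 2 / L ^ B₁ := by gcongr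
      have h3 : 3 * (H : ℝ) ^ 2 / L ^ B₁ = 3 * ((H : ℝ) ^ 2 / L ^ B₁) := by ring
      linarith
    have hlQ0 : 0 ≤ 1 + Real.log Q := by
      have := Real.log_nonneg (show (1 : ℝ) ≤ Q by exact_mod_cast hQn)
      linarith
    have h4C : L ^ (4 * C) = L ^ C * L ^ (3 * C) := by
      rw [show 4 * C = C + 3 * C by ring, pow_add]
    calc 156 * (A : ℝ) * ((H : ℝ) ^ 2 / (q₀ + 1) + H + Q) * (1 + Real.log Q) * (K * (6 * L) ^ 2)
        ≤ 156 * L ^ C * (3 * (H : ℝ) ^ 2 / L ^ B₁) * (3 * L) * ((4 * X * L ^ (3 * C)) * (6 * L) ^ 2) := by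
          gcongr
      _ = _ := by rw [h4C]; ring
  · -- major arcs
    have h1 : (q₀ : ℝ) * (q₀ + 1) ≤ 2 * (L ^ B₁ * L ^ B₁) := by
      have h2 : (q₀ : ℝ) + 1 ≤ 2 * L ^ B₁ := by
        have := hLp1 B₁
        linarith
      calc (q₀ : ℝ) * (q₀ + 1) ≤ L ^ B₁ * (2 * L ^ B₁) := by gcongr
        _ = _ := by ring
    have h2 : (x₀ : ℝ) + 2 * Y + 1 ≤ 2 * X / L ^ D := by
      have h3 : (Y : ℝ) * 10 ≤ X / L ^ D := by
        calc (Y : ℝ) * 10 ≤ Y * L := by gcongr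
          _ = Y * 1 * L := by ring
          _ ≤ Y * L ^ (2 * CF) * L := by gcongr; exact hLp1 _
          _ ≤ _ := hYup
      have h4 : 2 * (X : ℝ) / L ^ D = 2 * (X / L ^ D) := by ring
      linarith
    calc (H : ℝ) ^ 2 * (q₀ * (q₀ + 1)) * (3 * ((x₀ + 2 * Y + 1) * (6 * L) ^ 2 + 2 * K * (2 ^ U' / L ^ U')))
        ≤ (H : ℝ) ^ 2 * (2 * (L ^ B₁ * L ^ B₁)) * (3 * ((2 * X / L ^ D) * (6 * L) ^ 2 +
          2 * (4 * X * L ^ (4 * C)) * (2 ^ U' / L ^ U'))) := by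
          gcongr
          exact hK2.trans (by gcongr <;> omega)
      _ ≤ (H : ℝ) ^ 2 * (2 * (L ^ B₁ * L ^ B₁)) * (3 * ((2 * X / L ^ D) * (6 * L) ^ 2 +
          6 * X * L ^ (4 * C) * (2 * 2 ^ U' / L ^ U'))) := by
          have h5 : 2 * (4 * (X : ℝ) * L ^ (4 * C)) * (2 ^ U' / L ^ U') ≤ 6 * X * L ^ (4 * C) * (2 * 2 ^ U' / L ^ U') := by
            have h6 : 2 * (4 * (X : ℝ) * L ^ (4 * C)) * (2 ^ U' / L ^ U') =
                4 * (X * L ^ (4 * C) * (2 * 2 ^ U' / L ^ U')) := by ring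
            have h7 : 6 * (X : ℝ) * L ^ (4 * C) * (2 * 2 ^ U' / L ^ U') =
                6 * (X * L ^ (4 * C) * (2 * 2 ^ U' / L ^ U')) := by ring
            have h8 : 0 ≤ (X : ℝ) * L ^ (4 * C) * (2 * 2 ^ U' / L ^ U') := by positivity
            rw [h6, h7]
            linarith
          gcongr
      _ = _ := by ring

end Run7.h373.QW
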