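import Pool.Agent.N792.SingT
import Pool.Agent.R460.SC.Cm
import Pool.Agent.Run7.h373.QW.Mom

/-!
# Project QW: the constant for almost all constant terms, uniformly in the other two coefficients
-/

set_option autoImplicit false
set_option maxHeartbeats 1000000

namespace Run7.h373.QW

open Finset Filter Topology
open Pool.Agent.N792 (Vc V1 rho partialC eps gcdProd Admissible)
open Pool.Agent.N792.SingTail
open Pool.Agent.W468.ConjF (SJ PJ PJ_le PJ_tendsto PJ_pos factor_pos)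
open Pool.Agent.H373R2.T7 (ev_log')
open Run7.h385.CR (ev_lge)

/-- the tail of the product for almost all discriminants, uniformly in the coefficients -/
theorem con_tail (U C E : ℕ) (hE : 3 * (U + 2 * C + 3) + 8 ≤ E) : ∃ X₀ : ℕ, ∀ X : ℕ, X₀ ≤ X →
    ∀ a b : ℤ, 1 ≤ a → (a : ℝ) ≤ Real.log X ^ C → |(b : ℝ)| ≤ √X * Real.log X ^ C →
    ∃ Bad ⊆ Icc (-(X : ℤ)) X, (#Bad : ℝ) ≤ X / Real.log X ^ U ∧ ∀ c ∈ Icc (-(X : ℤ)) X, c ∉ Bad →
      ¬ IsSquare (b ^ 2 - 4 * a * c) ∧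
      ∀ᶠ N in atTop, |SJ (b ^ 2 - 4 * a * c) ⌊Real.log X ^ E⌋₊ N| ≤ 1 / Real.log X ^ (U + 2 * C + 3) := by
  obtain ⟨U₁, hU₁⟩ : ∃ U₁ : ℕ, U₁ = U + 2 * C + 3 := ⟨_, rfl⟩
  obtain ⟨x0, h0⟩ := Pool.Agent.R460.SC.tail_both 1 one_ne_zero 0 (1 / 4) (by norm_num) U₁ E
  obtain ⟨x1, h1⟩ := Pool.Agent.R460.SC.tail_both 1 one_ne_zero 1 (1 / 4) (by norm_num) U₁ E
  obtain ⟨x2, hx2⟩ := ev_lge ((2 : ℝ) ^ (3 * U₁ + 7) + 10)
  obtain ⟨x3, hx3⟩ := ev_log' (U + 2 * C + 1) 4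
  refine ⟨x0 + x1 + x2 + x3 + 3, fun X hX a b ha1 ha2 hb => ?_⟩
  have hL := hx2 X (by omega)
  have hLs := hx3 X (by omega)
  set L := Real.log X with hLdef
  have p1 : (0 : ℝ) < 2 ^ (3 * U₁ + 7) := by positivity
  have hL10 : 10 ≤ L := by linarith
  have hL0 : 0 < L := by linarith
  have hL1 : 1 ≤ L := by linarith
  have hLp : ∀ n : ℕ, 0 < L ^ n := fun n => by positivity
  have hLp1 : ∀ n : ℕ, 1 ≤ L ^ n := fun n => one_le_pow₀ hL1
  have hLmono : ∀ {i j : ℕ}, i ≤ j → L ^ i ≤ L ^ j := fun h => pow_le_pow_right₀ hL1 h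
  have hX1 : (1 : ℝ) ≤ X := by exact_mod_cast (by omega : 1 ≤ X)
  have hX0 : (0 : ℝ) < X := by linarith
  have hsX : √(X : ℝ) * √(X : ℝ) = X := Real.mul_self_sqrt hX0.le
  have hsX1 : 1 ≤ √(X : ℝ) := by rw [Real.one_le_sqrt]; exact hX1
  -- `X'`
  set X' : ℕ := ⌈(X : ℝ) * L ^ (2 * C + 1)⌉₊ with hX'
  have hX'1 : (X : ℝ) * L ^ (2 * C + 1) ≤ X' := Nat.le_ceil _
  have hXX : (X : ℝ) ≤ X * L ^ (2 * C + 1) := le_mul_of_one_le_right hX0.le (hLp1 _)
  have hX'2 : (X' : ℝ) ≤ 2 * X * L ^ (2 * C + 1) := by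
    have h1 : (X' : ℝ) < (X : ℝ) * L ^ (2 * C + 1) + 1 := Nat.ceil_lt_add_one (by positivity)
    linarith
  have hXX' : X ≤ X' := by exact_mod_cast (hXX.trans hX'1)
  have hX'0 : (0 : ℝ) < X' := by linarith
  have hl1 : L ≤ Real.log X' := Real.log_le_log hX0 (hXX.trans hX'1)
  have hl2 : Real.log X' ≤ 2 * L := by
    have h1 : (X' : ℝ) ≤ (X : ℝ) ^ 2 := by
      calc (X' : ℝ) ≤ 2 * X * L ^ (2 * C + 1) := hX'2
        _ = X * (2 * L ^ (2 * C + 1)) := by ring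
        _ ≤ X * (4 * L ^ (U + 2 * C + 1)) := by
            gcongr
            · norm_num
            · omega
        _ ≤ X * √X := by gcongr
        _ ≤ X * (√X * √X) := by gcongr; nlinarith
        _ = X ^ 2 := by rw [hsX]; ring
    have h2 := Real.log_le_log hX'0 h1
    rw [Real.log_pow] at h2
    push_cast at h2
    exact h2
  -- `z`
  set z : ℕ := ⌊L ^ E⌋₊ with hz
  have hz2 : (z : ℝ) ≤ L ^ E := Nat.floor_le (hLp E).le
  have hz3 : L ^ E - 1 ≤ z := by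
    have := Nat.lt_floor_add_one (L ^ E)
    rw [← hz] at this
    linarith
  have hzl : Real.log X' ^ (3 * (U₁ + 1) + 4) ≤ z := by
    have hl0 : 0 ≤ Real.log X' := by linarith
    refine le_trans ?_ hz3
    have h2 : L ^ (3 * U₁ + 8) ≤ L ^ E := hLmono (by omega)
    have h3 : Real.log X' ^ (3 * (U₁ + 1) + 4) ≤ 2 ^ (3 * U₁ + 7) * L ^ (3 * U₁ + 7) := by
      calc Real.log X' ^ (3 * (U₁ + 1) + 4) ≤ (2 * L) ^ (3 * (U₁ + 1) + 4) := pow_le_pow_left₀ hl0 hl2 _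
        _ = 2 ^ (3 * U₁ + 7) * L ^ (3 * U₁ + 7) := by
            rw [mul_pow, show 3 * (U₁ + 1) + 4 = 3 * U₁ + 7 by ring]
    have h4 : L ^ (3 * U₁ + 8) = L * L ^ (3 * U₁ + 7) := by ring
    have h5 : 1 ≤ L ^ (3 * U₁ + 7) := hLp1 _
    nlinarith
  have hzu : (z : ℝ) ≤ Real.log X' ^ E := hz2.trans (pow_le_pow_left₀ hL0.le hl1 E)
  have hq : ((1 : ℕ) : ℝ) ≤ (X' : ℝ) ^ (1 / 2 - 1 / 4 : ℝ) := by
    rw [Nat.cast_one]
    exact Real.one_le_rpow (by linarith) (by norm_num)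
  -- the two residues
  obtain ⟨β, k, hbk, hβ⟩ : ∃ β k : ℤ, b = β + 2 * k ∧ (β = 0 ∨ β = 1) := by
    refine ⟨b % 2, b / 2, by omega, by omega⟩
  have hkey : ∃ Ex : Finset ℤ, (#Ex : ℝ) ≤ 2 * (X' / Real.log X' ^ U₁) + 1 ∧
      ∀ c : ℤ, -(X' : ℤ) ≤ c → c ≤ X' → c ∉ Ex → ¬ IsSquare (β ^ 2 - 4 * 1 * c) ∧
        ∀ᶠ N in atTop, |SJ (β ^ 2 - 4 * 1 * c) z N| ≤ 1 / Real.log X' ^ U₁ := by
    rcases hβ with h | h
    · obtain ⟨Ex, g1, g2⟩ := h0 X' (by omega) z hzl hzu 1 le_rfl hq 0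
      refine ⟨Ex, by simpa using g1, fun c hc1 hc2 hcE => ?_⟩
      rw [h]
      exact g2 c hc1 hc2 (by rw [Nat.cast_one]; exact Int.modEq_one) hcE
    · obtain ⟨Ex, g1, g2⟩ := h1 X' (by omega) z hzl hzu 1 le_rfl hq 0
      refine ⟨Ex, by simpa using g1, fun c hc1 hc2 hcE => ?_⟩
      rw [h]
      exact g2 c hc1 hc2 (by rw [Nat.cast_one]; exact Int.modEq_one) hcE
  obtain ⟨Ex, g1, g2⟩ := hkey
  have hD : ∀ c : ℤ, β ^ 2 - 4 * 1 * (a * c - k * β - k ^ 2) = b ^ 2 - 4 * a * c := by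
    intro c
    rw [hbk]; ring
  refine ⟨(Icc (-(X : ℤ)) X).filter (fun c => a * c - k * β - k ^ 2 ∈ Ex), filter_subset _ _, ?_, ?_⟩
  · have hinj : #((Icc (-(X : ℤ)) X).filter (fun c => a * c - k * β - k ^ 2 ∈ Ex)) ≤ #Ex := by
      refine card_le_card_of_injOn (fun c => a * c - k * β - k ^ 2) ?_ ?_
      · intro c hc
        rw [mem_coe, mem_filter] at hc
        exact hc.2
      · intro c _ c' _ h
        simp only at h
        have : a * c = a * c' := by linarith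
        exact Int.eq_of_mul_eq_mul_left (by omega) this
    have hinj' : (#((Icc (-(X : ℤ)) X).filter (fun c => a * c - k * β - k ^ 2 ∈ Ex)) : ℝ) ≤ #Ex := by
      exact_mod_cast hinj
    refine hinj'.trans (g1.trans ?_)
    have h2 : (X' : ℝ) / Real.log X' ^ U₁ ≤ 2 * X / L ^ (U + 2) := by
      calc (X' : ℝ) / Real.log X' ^ U₁ ≤ (2 * X * L ^ (2 * C + 1)) / L ^ U₁ := by gcongr
        _ = 2 * X / L ^ (U + 2) := by
            rw [hU₁, show U + 2 * C + 3 = (2 * C + 1) + (U + 2) by ring, pow_add L (2 * C + 1) (U + 2), ← div_div,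
              mul_div_cancel_right₀ _ (hLp _).ne']
    have h3 : 1 ≤ X / L ^ U / 2 := by
      rw [div_div, le_div_iff₀ (by positivity), one_mul]
      calc L ^ U * 2 ≤ 4 * L ^ (U + 2 * C + 1) := by
            have := hLmono (show U ≤ U + 2 * C + 1 by omega)
            have := hLp U
            linarith
        _ ≤ √X := hLs
        _ ≤ √X * √X := by nlinarith
        _ = X := hsX
    have h4 : 2 * (2 * (X : ℝ) / L ^ (U + 2)) ≤ X / L ^ U / 2 := by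
      have e1 : 2 * (2 * (X : ℝ) / L ^ (U + 2)) = X / L ^ U * (4 / L ^ 2) := by
        rw [pow_add]; field_simp; norm_num
      rw [e1, div_eq_mul_one_div (X / L ^ U) 2]
      apply mul_le_mul_of_nonneg_left _ (by positivity)
      rw [div_le_div_iff₀ (by positivity) (by norm_num)]
      nlinarith
    linarith
  · intro c hc hcB
    rw [mem_filter, not_and] at hcB
    have h2 := hcB hc
    rw [mem_Icc] at hc
    -- the size
    have hsize : |((a * c - k * β - k ^ 2 : ℤ) : ℝ)| ≤ X' := by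
      have hcr : |(c : ℝ)| ≤ X := by
        rw [abs_le]
        exact ⟨by exact_mod_cast hc.1, by exact_mod_cast hc.2⟩
      have har0 : (0 : ℝ) ≤ a := by exact_mod_cast (by omega : (0 : ℤ) ≤ a)
      have hac : |(a : ℝ) * c| ≤ L ^ C * X := by
        rw [abs_mul, abs_of_nonneg har0]
        exact mul_le_mul ha2 hcr (abs_nonneg _) (hLp _).le
      have hb2 : (b : ℝ) ^ 2 ≤ X * L ^ (2 * C) := by
        calc (b : ℝ) ^ 2 = |(b : ℝ)| ^ 2 := (sq_abs _).symm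
          _ ≤ (√X * L ^ C) ^ 2 := pow_le_pow_left₀ (abs_nonneg _) hb 2
          _ = (√X * √X) * L ^ (2 * C) := by ring
          _ = _ := by rw [hsX]
      have hβb : k * β + k ^ 2 = (b ^ 2 - β ^ 2) / 4 := by
        rw [hbk, show (β + 2 * k) ^ 2 - β ^ 2 = 4 * (k * β + k ^ 2) by ring]
        omega
      have hkb : |((k * β + k ^ 2 : ℤ) : ℝ)| ≤ X * L ^ (2 * C) + 1 := by
        have e1 : (4 : ℝ) * ((k * β + k ^ 2 : ℤ) : ℝ) = (b : ℝ) ^ 2 - (β : ℝ) ^ 2 := by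
          rw [hbk]; push_cast; ring
        have hβ2 : (0 : ℝ) ≤ (β : ℝ) ^ 2 ∧ (β : ℝ) ^ 2 ≤ 1 := by
          rcases hβ with h | h <;> rw [h] <;> norm_num
        have hb0 : 0 ≤ (b : ℝ) ^ 2 := sq_nonneg _
        have hXL : 0 ≤ (X : ℝ) * L ^ (2 * C) := by positivity
        rw [abs_le]
        constructor <;> linarith [hβ2.1, hβ2.2]
      have e2 : ((a * c - k * β - k ^ 2 : ℤ) : ℝ) = (a : ℝ) * c - ((k * β + k ^ 2 : ℤ) : ℝ) := by
        push_cast; ring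
      rw [e2]
      refine (abs_sub _ _).trans ?_
      have h5 : L ^ C * X ≤ X * L ^ (2 * C) := by
        rw [mul_comm]
        gcongr
        omega
      have h6 : (X : ℝ) * L ^ (2 * C + 1) = X * L ^ (2 * C) * L := by ring
      have h7 : (1 : ℝ) ≤ X * L ^ (2 * C) := by
        have := hLp1 (2 * C)
        nlinarith
      have h8 : X * L ^ (2 * C) * 10 ≤ X * L ^ (2 * C) * L := by gcongr
      linarith
    have hs1 : -(X' : ℤ) ≤ a * c - k * β - k ^ 2 ∧ a * c - k * β - k ^ 2 ≤ (X' : ℤ) := by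
      have := abs_le.1 hsize
      constructor
      · exact_mod_cast this.1
      · exact_mod_cast this.2
    obtain ⟨f1, f2⟩ := g2 _ hs1.1 hs1.2 h2
    rw [hD] at f1 f2
    refine ⟨f1, ?_⟩
    filter_upwards [f2] with N hN
    refine hN.trans ?_
    rw [hU₁]
    gcongr

/-- **the constant for almost all constant terms** -/
theorem con (U C E : ℕ) (hE : 3 * (U + 2 * C + 3) + 8 ≤ E) : ∃ X₀ : ℕ, ∀ X : ℕ, X₀ ≤ X →
    ∀ a b : ℤ, 1 ≤ a → (a : ℝ) ≤ Real.log X ^ C → |(b : ℝ)| ≤ √X * Real.log X ^ C →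
    ∃ Bad ⊆ Icc (-(X : ℤ)) X, (#Bad : ℝ) ≤ X / Real.log X ^ U ∧ ∀ c ∈ Icc (-(X : ℤ)) X, c ∉ Bad →
      Admissible a b c → ∃ S : ℝ, 0 < S ∧ Tendsto (fun y => partialC a b c y) atTop (𝓝 S) ∧
        |eps a b * S * gcdProd a b - Vc a b c ⌊Real.log X ^ E⌋₊ / V1 ⌊Real.log X ^ E⌋₊| ≤
          Vc a b c ⌊Real.log X ^ E⌋₊ / V1 ⌊Real.log X ^ E⌋₊ / Real.log X ^ U := by
  obtain ⟨x0, h0⟩ := con_tail U C E hE
  obtain ⟨x2, hx2⟩ := ev_lge 100
  refine ⟨x0 + x2 + 3, fun X hX a b ha1 ha2 hb => ?_⟩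
  obtain ⟨Bad, k1, k2, k3⟩ := h0 X (by omega) a b ha1 ha2 hb
  refine ⟨Bad, k1, k2, fun c hc hcB hadm => ?_⟩
  obtain ⟨f1, f2⟩ := k3 c hc hcB
  have hL := hx2 X (by omega)
  set L := Real.log X with hLdef
  have hL0 : 0 < L := by linarith
  have hL1 : 1 ≤ L := by linarith
  have hLp : ∀ n : ℕ, 0 < L ^ n := fun n => by positivity
  have hLp1 : ∀ n : ℕ, 1 ≤ L ^ n := fun n => one_le_pow₀ hL1
  have hLmono : ∀ {i j : ℕ}, i ≤ j → L ^ i ≤ L ^ j := fun h => pow_le_pow_right₀ hL1 h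
  set w : ℕ := ⌊L ^ E⌋₊ with hw
  have hw1 : L ^ E - 1 ≤ w := by
    have := Nat.lt_floor_add_one (L ^ E)
    rw [← hw] at this
    linarith
  have hLE1 : L ^ (U + C + 2) * L ≤ L ^ E := by
    rw [← pow_succ]; exact hLmono (by omega)
  have hwU : L ^ (U + C + 2) ≤ w := by
    have := hLp1 (U + C + 2)
    nlinarith
  have hw2 : 2 ≤ w := by
    have h1 : (2 : ℝ) ≤ w := by
      have : L ≤ L ^ (U + C + 2) := le_self_pow₀ hL1 (by omega)
      linarith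
    exact_mod_cast h1
  have haw : a ≤ w := by
    have h1 : (a : ℝ) ≤ w := ha2.trans ((hLmono (by omega)).trans hwU)
    exact_mod_cast h1
  have ha : 0 < a := by omega
  have hw0 : (0 : ℝ) < w := by exact_mod_cast (by omega : 0 < w)
  obtain ⟨D, hD⟩ : ∃ D : ℤ, D = b ^ 2 - 4 * a * (c : ℤ) := ⟨_, rfl⟩
  rw [← hD] at f1 f2
  have hLU : 0 < L ^ U := hLp U
  have hδ : 1 / L ^ (U + 2 * C + 3) ≤ 1 / (8 * L ^ U) := by
    apply one_div_le_one_div_of_le (by positivity)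
    calc 8 * L ^ U ≤ L * L ^ U := by gcongr; linarith
      _ = L ^ (U + 1) := by ring
      _ ≤ L ^ (U + 2 * C + 3) := hLmono (by omega)
  have h5w : 5 / (w : ℝ) ≤ 1 / (8 * L ^ U) := by
    rw [div_le_div_iff₀ hw0 (by positivity)]
    calc 5 * (8 * L ^ U) = 40 * L ^ U := by ring
      _ ≤ L * L ^ U := mul_le_mul_of_nonneg_right (by linarith) hLU.le
      _ = L ^ (U + 1) := by ring
      _ ≤ L ^ (U + C + 2) := hLmono (by omega)
      _ ≤ 1 * w := by rw [one_mul]; exact hwU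
  have hsum : 1 / (8 * L ^ U) + 5 / (w : ℝ) ≤ 1 / (4 * L ^ U) := by
    have e1 : 1 / (4 * L ^ U) = 1 / (8 * L ^ U) + 1 / (8 * L ^ U) := by
      field_simp
      norm_num
    linarith
  have hL1U : 1 ≤ L ^ U := hLp1 U
  have hq : 1 / (4 * L ^ U) ≤ 1 / 4 := one_div_le_one_div_of_le (by norm_num) (by linarith)
  have hfin : 2 * (1 / (8 * L ^ U) + 5 / (w : ℝ)) ≤ 1 / L ^ U := by
    have e1 : 1 / L ^ U = 4 * (1 / (4 * L ^ U)) := by
      field_simp
    have e2 : 0 < 1 / (4 * L ^ U) := by positivity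
    linarith
  have h80 : (0 : ℝ) ≤ 1 / (8 * L ^ U) := by positivity
  obtain ⟨l, hl0, hl⟩ := PJ_tendsto D f1 w hw2
  have hcl : |l - 1| ≤ 2 * (1 / (8 * L ^ U) + 5 / (w : ℝ)) := by
    have h1 : Tendsto (fun N => |PJ D w N - 1|) atTop (𝓝 |l - 1|) :=
      ((hl.sub_const 1).abs)
    apply le_of_tendsto h1
    filter_upwards [f2, eventually_ge_atTop w] with N h2 hN
    exact PJ_close hw2 hN h80 (by linarith) (h2.trans hδ)
  refine ⟨partialC a b c w * l, mul_pos (partialC_pos _ _ _ _) hl0, ?_, ?_⟩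
  · refine (hl.const_mul (partialC a b c w)).congr' ?_
    filter_upwards [eventually_ge_atTop w] with N hN
    rw [partialC_split ha hw2 haw hN, ← hD]
  · rw [V_ratio hadm hw2 haw]
    have h3 : eps a b * (partialC a b c w * l) * gcdProd a b - eps a b * gcdProd a b * partialC a b c w =
        eps a b * gcdProd a b * partialC a b c w * (l - 1) := by ring
    have h4 : 0 ≤ eps a b * gcdProd a b * partialC a b c w :=
      (mul_pos (mul_pos (eps_pos _ _) (gcdProd_pos _ _)) (partialC_pos _ _ _ _)).le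
    rw [h3, abs_mul, abs_of_nonneg h4, div_eq_mul_one_div _ (L ^ U)]
    exact mul_le_mul_of_nonneg_left (hcl.trans hfin) h4

end Run7.h373.QW
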