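import Pool.Agent.Run7.h373.QW.FI
import Pool.Agent.Run7.h373.QW.Cst
import Pool.Agent.Run7.h373.QW.Siv

/-!
# Project QW: windows of length `X^(1/6)`, almost all constant terms, every pair of the other coefficients
-/

set_option autoImplicit false
set_option maxHeartbeats 1000000

namespace Run7.h373.QW

open Finset Filter Topology
open Pool.Agent.N792 (Vc V1 rho fv partialC eps gcdProd Admissible)
open Pool.Agent.N792.SingTail (V_ratio V1_pos Vc_nonneg eps_pos gcdProd_pos partialC_pos)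
open Pool.Agent.H373R2.T7 (pz Vz lamz mem_pz Vz_ge ev_log' Vz_inv_small choice)
open Pool.Agent.TH892.SW (wt wt_le wt_nonneg ff ffn js_le)
open Pool.Agent.Y868.TB (evt_root)
open Run7.h385.CR (ev_lge)

/-- the choice of the level of the sieve -/
lemma pick (E V C1 : ℕ) : ∃ N0 : ℕ, ∀ N : ℕ, N0 ≤ N → ∀ z : ℕ, (z : ℝ) ≤ Real.log N ^ E →
    ∃ k : ℕ, C1 ≤ k ∧ (1 / 2 : ℝ) ^ k ≤ 1 / Real.log N ^ V ∧ (z : ℝ) ^ (C1 * k + 1) ≤ (N : ℝ) ^ (1 / 12 : ℝ) := by
  obtain ⟨n0, h0⟩ := choice 0 E (V + 1) (12 * (2 * C1 + 1))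
  obtain ⟨n1, h1⟩ := ev_lge (Real.exp (C1 + 1))
  refine ⟨n0 + n1 + 1, fun N hN z hz => ?_⟩
  obtain ⟨r, hr1, hr2, -⟩ := h0 N (by omega) z hz
  have hL := h1 N (by omega)
  set L := Real.log N with hLd
  have hexp : (1 : ℝ) ≤ Real.exp (C1 + 1) := Real.one_le_exp (by positivity)
  have hL1 : 1 ≤ L := by linarith
  have hL0 : 0 < L := by linarith
  have hN0 : (0 : ℝ) ≤ N := Nat.cast_nonneg _
  simp only [Nat.cast_zero, zero_mul, mul_zero, zero_sub] at hr1
  have hrL : Real.exp (-r) ≤ 1 / L := by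
    refine hr1.trans (one_div_le_one_div_of_le hL0 (le_self_pow₀ hL1 (by omega)))
  have hrC : (C1 : ℝ) + 1 ≤ r := by
    have h2 : Real.exp (-r) ≤ Real.exp (-(C1 + 1)) := by
      refine hrL.trans ?_
      rw [Real.exp_neg, one_div]
      exact inv_anti₀ (by positivity) hL
    have := Real.exp_le_exp.1 h2
    linarith
  have hrC' : C1 + 1 ≤ r := by exact_mod_cast hrC
  refine ⟨2 * r, by omega, ?_, ?_⟩
  · have h2 : (1 / 2 : ℝ) ^ (2 * r) ≤ Real.exp (-r) := by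
      have h3 : (1 / 4 : ℝ) ≤ Real.exp (-1) := by
        rw [Real.exp_neg, one_div]
        apply inv_anti₀ (Real.exp_pos 1)
        have := Real.exp_one_lt_d9
        linarith
      calc (1 / 2 : ℝ) ^ (2 * r) = (1 / 4 : ℝ) ^ r := by rw [pow_mul]; norm_num
        _ ≤ Real.exp (-1) ^ r := pow_le_pow_left₀ (by norm_num) h3 r
        _ = Real.exp (-r) := by rw [← Real.exp_nat_mul]; ring_nf
    refine h2.trans (hr1.trans ?_)
    apply one_div_le_one_div_of_le (by positivity)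
    exact pow_le_pow_right₀ hL1 (by omega)
  · have h2 : ((z : ℝ) ^ (C1 * (2 * r) + 1)) ^ 12 ≤ N := by
      refine le_trans ?_ hr2
      have hz1 : (1 : ℝ) ≤ (z : ℝ) + 1 := by
        have : (0 : ℝ) ≤ z := Nat.cast_nonneg z
        linarith
      calc ((z : ℝ) ^ (C1 * (2 * r) + 1)) ^ 12 = (z : ℝ) ^ ((C1 * (2 * r) + 1) * 12) := by rw [← pow_mul]
        _ ≤ ((z : ℝ) + 1) ^ ((C1 * (2 * r) + 1) * 12) := pow_le_pow_left₀ (Nat.cast_nonneg _) (by linarith) _
        _ ≤ ((z : ℝ) + 1) ^ (r * (12 * (2 * C1 + 1))) := by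
            apply pow_le_pow_right₀ hz1
            nlinarith
        _ = _ := by rw [pow_mul]
    have h3 : (z : ℝ) ^ (C1 * (2 * r) + 1) = (((z : ℝ) ^ (C1 * (2 * r) + 1)) ^ 12) ^ (1 / 12 : ℝ) := by
      rw [← Real.rpow_natCast (((z : ℝ) ^ (C1 * (2 * r) + 1))) 12, ← Real.rpow_mul (by positivity)]
      norm_num
    rw [h3]
    exact Real.rpow_le_rpow (by positivity) h2 (by norm_num)

lemma partialC_ge (a b c : ℤ) (z : ℕ) : Vz z ^ 2 ≤ partialC a b c z := by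
  classical
  obtain ⟨S, hS⟩ : ∃ S : Finset ℕ, S = (Icc 3 z).filter (fun p : ℕ => p.Prime ∧ ¬ (p : ℤ) ∣ a) := ⟨_, rfl⟩
  have hsub : S ⊆ pz z := by
    intro p hp
    rw [hS, mem_filter, mem_Icc] at hp
    rw [mem_pz]
    exact ⟨hp.1.2, hp.2.1⟩
  have hf : ∀ p ∈ pz z, 0 ≤ (1 - 1 / (p : ℝ)) ^ 2 ∧ (1 - 1 / (p : ℝ)) ^ 2 ≤ 1 := by
    intro p hp
    have h2 : (2 : ℝ) ≤ p := by exact_mod_cast (mem_pz.1 hp).2.two_le
    have h3 : 0 < 1 / (p : ℝ) := by positivity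
    have h4 : 1 / (p : ℝ) ≤ 1 / 2 := one_div_le_one_div_of_le (by norm_num) h2
    exact ⟨sq_nonneg _, by nlinarith⟩
  have h1 : Vz z ^ 2 = (∏ p ∈ pz z \ S, (1 - 1 / (p : ℝ)) ^ 2) * ∏ p ∈ S, (1 - 1 / (p : ℝ)) ^ 2 := by
    rw [prod_sdiff hsub]
    unfold Vz
    rw [prod_pow]
  have h2 : ∏ p ∈ pz z \ S, (1 - 1 / (p : ℝ)) ^ 2 ≤ 1 :=
    prod_le_one (fun p hp => (hf p (mem_sdiff.1 hp).1).1) (fun p hp => (hf p (mem_sdiff.1 hp).1).2)
  have h3 : 0 ≤ ∏ p ∈ S, (1 - 1 / (p : ℝ)) ^ 2 := prod_nonneg fun p _ => sq_nonneg _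
  have h4 : ∏ p ∈ S, (1 - 1 / (p : ℝ)) ^ 2 ≤ partialC a b c z := by
    unfold partialC
    rw [← hS]
    apply prod_le_prod (fun p _ => sq_nonneg _)
    intro p hp
    rw [hS, mem_filter, mem_Icc] at hp
    have h5 : (3 : ℝ) ≤ p := by exact_mod_cast hp.1.1
    have h6 := (abs_le.1 (js_le (b ^ 2 - 4 * a * c) p)).2
    have h7 : (jacobiSym (b ^ 2 - 4 * a * c) p : ℝ) / (p - 1) ≤ 1 / (p - 1) :=
      div_le_div_of_nonneg_right h6 (by linarith)
    have h8 : (1 - 1 / (p : ℝ)) ^ 2 ≤ 1 - 1 / ((p : ℝ) - 1) := by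
      have h9 : 1 - 1 / ((p : ℝ) - 1) - (1 - 1 / (p : ℝ)) ^ 2 = ((p : ℝ) ^ 2 - 3 * p + 1) / (p ^ 2 * (p - 1)) := by
        have : (p : ℝ) - 1 ≠ 0 := by
          have : 0 < (p : ℝ) - 1 := by linarith
          exact this.ne'
        have : (p : ℝ) ≠ 0 := by linarith
        field_simp
        ring
      have h10 : 0 ≤ ((p : ℝ) ^ 2 - 3 * p + 1) / (p ^ 2 * (p - 1)) := by
        apply div_nonneg
        · nlinarith
        · have : 0 ≤ (p : ℝ) - 1 := by linarith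
          positivity
      linarith
    linarith
  rw [h1]
  nlinarith

lemma RR_low {a b c : ℤ} (h : Admissible a b c) {z : ℕ} (hz : 2 ≤ z) (haz : a ≤ z) : Vz z ^ 2 ≤ RR a b c z := by
  unfold RR
  rw [V_ratio h hz haz]
  have h1 : 1 ≤ eps a b := by
    unfold eps
    split_ifs <;> norm_num
  have h2 : 1 ≤ gcdProd a b := by
    unfold gcdProd
    calc (1 : ℝ) = ∏ p ∈ (Int.gcd a b).primeFactors.filter (fun p => 2 < p), (1 : ℝ) := by rw [prod_const_one]
      _ ≤ _ := by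
          apply prod_le_prod (fun _ _ => zero_le_one)
          intro p hp
          rw [mem_filter] at hp
          have h3 : (3 : ℝ) ≤ p := by exact_mod_cast hp.2
          rw [le_div_iff₀ (by linarith)]
          linarith
  have h3 := partialC_ge a b c z
  have h4 := partialC_pos a b c z
  have h5 : 1 ≤ eps a b * gcdProd a b := by nlinarith
  calc Vz z ^ 2 ≤ 1 * partialC a b c z := by rw [one_mul]; exact h3
    _ ≤ _ := mul_le_mul_of_nonneg_right h5 h4.le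

/-- the number of the primes `s f(n)` in a window -/
def pC (s a b c : ℤ) (u v : ℕ) : ℕ := #((Ioc u v).filter (fun n : ℕ => (s * qv a b c n).toNat.Prime))

/-- the sum of `1 / log (s f(n))` over the `n` of the window with `s f(n) ≥ 2` -/
noncomputable def lS (s a b c : ℤ) (u v : ℕ) : ℝ :=
  ∑ n ∈ (Ioc u v).filter (fun n : ℕ => 2 ≤ s * qv a b c n), wt (s * qv a b c n).toNat

lemma pC_eq (s a b c : ℤ) (u v z : ℕ) (R : ℝ) : (pC s a b c u v : ℝ) - R * lS s a b c u v =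
    ∑ n ∈ Ioc u v, ff z (s * qv a b c n) +
      ∑ i ∈ (Ioc u v).filter (fun i : ℕ => 2 ≤ s * qv a b c i),
        wt (s * qv a b c i).toNat * (lamz z (s * qv a b c i).toNat - R) := by
  have h1 : (pC s a b c u v : ℝ) = ∑ n ∈ (Ioc u v).filter (fun n : ℕ => 2 ≤ s * qv a b c n),
      (if (s * qv a b c n).toNat.Prime then (1 : ℝ) else 0) := by
    unfold pC
    rw [card_filter]
    push_cast
    rw [sum_filter]
    refine sum_congr rfl fun n _ => ?_
    by_cases h : 2 ≤ s * qv a b c n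
    · rw [if_pos h]
    · rw [if_neg h, if_neg]
      intro hp
      have := hp.two_le
      omega
  have h2 : ∑ n ∈ Ioc u v, ff z (s * qv a b c n) = ∑ n ∈ (Ioc u v).filter (fun n : ℕ => 2 ≤ s * qv a b c n),
      ffn z (s * qv a b c n).toNat := by
    rw [sum_filter]
    exact sum_congr rfl fun n _ => rfl
  rw [h1, h2]
  unfold lS
  rw [mul_sum, ← sum_sub_distrib, ← sum_add_distrib]
  refine sum_congr rfl fun n _ => ?_
  unfold ffn
  ring

lemma lS_nonneg (s a b c : ℤ) (u v : ℕ) : 0 ≤ lS s a b c u v := sum_nonneg fun _ _ => wt_nonneg _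

lemma lS_le (s a b c : ℤ) (u v : ℕ) (huv : u ≤ v) : lS s a b c u v ≤ 3 / 2 * ((v : ℝ) - u) := by
  unfold lS
  calc ∑ n ∈ (Ioc u v).filter (fun n : ℕ => 2 ≤ s * qv a b c n), wt (s * qv a b c n).toNat
      ≤ ∑ n ∈ (Ioc u v).filter (fun n : ℕ => 2 ≤ s * qv a b c n), (3 / 2 : ℝ) := by
        refine sum_le_sum fun n hn => ?_
        rw [mem_filter] at hn
        exact wt_le (by omega)
    _ = #((Ioc u v).filter (fun n : ℕ => 2 ≤ s * qv a b c n)) * (3 / 2 : ℝ) := by rw [sum_const, nsmul_eq_mul]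
    _ ≤ ((v : ℝ) - u) * (3 / 2 : ℝ) := by
        apply mul_le_mul_of_nonneg_right _ (by norm_num)
        have h1 := card_filter_le (Ioc u v) (fun n : ℕ => 2 ≤ s * qv a b c n)
        rw [Nat.card_Ioc] at h1
        have h2 : ((v : ℝ) - u) = ((v - u : ℕ) : ℝ) := by rw [Nat.cast_sub huv]
        rw [h2]
        exact_mod_cast h1
    _ = _ := by ring

/-- **the theorem** -/
theorem final (U C : ℕ) : ∃ B X₀ : ℕ, ∀ X : ℕ, X₀ ≤ X → ∀ a b : ℤ, 1 ≤ a → (a : ℝ) ≤ Real.log X ^ C →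
    |(b : ℝ)| ≤ √X * Real.log X ^ C → ∀ m H : ℕ, (X : ℝ) ^ (1 / 6 : ℝ) * Real.log X ^ B ≤ H →
    (m : ℝ) + H ≤ √X * Real.log X ^ C →
    ∃ Bad ⊆ Icc (-(X : ℤ)) X, (#Bad : ℝ) ≤ X / Real.log X ^ U ∧ ∀ c ∈ Icc (-(X : ℤ)) X, c ∉ Bad →
      Admissible a b c → ∃ S : ℝ, 0 < S ∧ Tendsto (fun z => partialC a b c z) atTop (𝓝 S) ∧
        ∀ s : ℤ, (s = 1 ∨ s = -1) →
          |(pC s a b c m (m + H) : ℝ) - eps a b * S * gcdProd a b * lS s a b c m (m + H)| ≤
            eps a b * S * gcdProd a b * H / Real.log X ^ U := by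
  classical
  obtain ⟨E1, hE1⟩ := t1m FI (3 * U + 10) C
  obtain ⟨E, hE⟩ : ∃ E, E = E1 + (3 * (U + 2 + 2 * C + 3) + 8) := ⟨_, rfl⟩
  obtain ⟨B, X0, h0⟩ := hE1 E (by omega)
  obtain ⟨X1, h1⟩ := con (U + 2) C E (by omega)
  obtain ⟨C1, y0, hC1, hy0, hmod⟩ := model_w
  obtain ⟨X2, h2⟩ := pick E (U + 2) C1
  obtain ⟨X3, h3⟩ := Vz_inv_small E
  obtain ⟨X4, h4⟩ := ev_lge (y0 + 100)
  obtain ⟨X5, h5⟩ := evt_root 12 (U + 4) (by norm_num) 3
  refine ⟨B, X0 + X1 + X2 + X3 + X4 + X5 + 1, fun X hX a b ha1 ha2 hb m H hH1 hH2 => ?_⟩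
  have g4 := h4 X (by omega)
  have g5 := h5 X (by omega)
  obtain ⟨Bad0, k1, k2, k3⟩ := h1 X (by omega) a b ha1 ha2 hb
  set L := Real.log X with hLd
  have hy0r : (0 : ℝ) ≤ y0 := Nat.cast_nonneg _
  have hL100 : 100 ≤ L := by linarith
  have hL0 : 0 < L := by linarith
  have hL1 : 1 ≤ L := by linarith
  have hLp : ∀ n : ℕ, 0 < L ^ n := fun n => by positivity
  have hLp1 : ∀ n : ℕ, 1 ≤ L ^ n := fun n => one_le_pow₀ hL1
  have hLmono : ∀ {i j : ℕ}, i ≤ j → L ^ i ≤ L ^ j := fun h => pow_le_pow_right₀ hL1 h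
  have hX1 : (1 : ℝ) ≤ X := by exact_mod_cast (by omega : 1 ≤ X)
  have hX0 : (0 : ℝ) < X := by linarith
  -- `z`
  set z : ℕ := ⌊L ^ E⌋₊ with hz
  have hz2 : (z : ℝ) ≤ L ^ E := Nat.floor_le (hLp E).le
  have hz3 : L ≤ z := by
    have h6 := Nat.lt_floor_add_one (L ^ E)
    rw [← hz] at h6
    have h7 : L * L ≤ L ^ E := by
      rw [← sq]; exact hLmono (by omega)
    nlinarith
  have hzC : L ^ C ≤ z := by
    have h6 := Nat.lt_floor_add_one (L ^ E)
    rw [← hz] at h6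
    have h7 : L ^ C * L ≤ L ^ E := by
      rw [← pow_succ]; exact hLmono (by omega)
    have := hLp1 C
    nlinarith
  have hzy : y0 ≤ z := by
    have : (y0 : ℝ) ≤ z := by linarith
    exact_mod_cast this
  have hz2' : 2 ≤ z := by omega
  have haz : a ≤ z := by
    have : (a : ℝ) ≤ z := ha2.trans hzC
    exact_mod_cast this
  have hVi : (Vz z)⁻¹ ≤ L := h3 X (by omega) z (by omega) hz2
  have hV0 : 0 < Vz z := Pool.Agent.H373R2.T7.Vz_pos z
  have hVl : 1 / L ≤ Vz z := by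
    rw [one_div]
    exact inv_le_of_inv_le₀ hV0 hVi
  obtain ⟨k, hk1, hk2, hk3⟩ := h2 X (by omega) z hz2
  rw [← hLd] at hk2
  -- `H`
  have hX6 : (1 : ℝ) ≤ (X : ℝ) ^ (1 / 6 : ℝ) := Real.one_le_rpow hX1 (by norm_num)
  have hH1' : (X : ℝ) ^ (1 / 6 : ℝ) ≤ H := by
    refine le_trans ?_ hH1
    exact le_mul_of_one_le_right (by positivity) (hLp1 B)
  have hH0 : (0 : ℝ) < H := by linarith
  have hsmall : 3 * (z : ℝ) ^ (C1 * k + 1) ≤ H / L ^ (U + 4) := by
    rw [le_div_iff₀ (hLp _)]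
    have h6 : 3 * L ^ (U + 4) ≤ (X : ℝ) ^ (1 / 12 : ℝ) := by
      have := g5
      norm_num at this ⊢
      exact this
    calc 3 * (z : ℝ) ^ (C1 * k + 1) * L ^ (U + 4) = (z : ℝ) ^ (C1 * k + 1) * (3 * L ^ (U + 4)) := by ring
      _ ≤ (X : ℝ) ^ (1 / 12 : ℝ) * (X : ℝ) ^ (1 / 12 : ℝ) := by gcongr
      _ = (X : ℝ) ^ (1 / 6 : ℝ) := by
          rw [← Real.rpow_add hX0]; norm_num
      _ ≤ H := hH1'
  -- the two other exceptional sets
  obtain ⟨A, hA⟩ : ∃ A : ℕ, a = (A : ℤ) := ⟨a.toNat, by omega⟩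
  have hA1 : 1 ≤ A := by omega
  have hA2 : (A : ℝ) ≤ L ^ C := by
    have : (a : ℝ) = A := by rw [hA]; push_cast; rfl
    rw [← this]; exact ha2
  obtain ⟨T, hT⟩ : ∃ T : ℤ → ℤ → ℝ, T = fun s c => ∑ n ∈ Ioc m (m + H), ff z (s * qv a b c n) := ⟨_, rfl⟩
  have hmom : ∀ s : ℤ, (s = 1 ∨ s = -1) → ∑ c ∈ Icc (-(X : ℤ)) X, T s c ^ 2 ≤ X * (H : ℝ) ^ 2 / L ^ (3 * U + 10) := by
    intro s hs
    have h6 := h0 X (by omega) A b hA1 hA2 hb m H hH1 hH2 s hs
    rw [hT]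
    simp only [qv, hA]
    exact h6
  have hbad : ∀ s : ℤ, (s = 1 ∨ s = -1) →
      (#((Icc (-(X : ℤ)) X).filter (fun c => H / L ^ (U + 4) < |T s c|)) : ℝ) ≤ X / L ^ (U + 2) := by
    intro s hs
    have h6 := hmom s hs
    have h7 : (#((Icc (-(X : ℤ)) X).filter (fun c => H / L ^ (U + 4) < |T s c|)) : ℝ) * (H / L ^ (U + 4)) ^ 2 ≤
        ∑ c ∈ Icc (-(X : ℤ)) X, T s c ^ 2 := by
      calc (#((Icc (-(X : ℤ)) X).filter (fun c => H / L ^ (U + 4) < |T s c|)) : ℝ) * (H / L ^ (U + 4)) ^ 2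
          = ∑ c ∈ (Icc (-(X : ℤ)) X).filter (fun c => H / L ^ (U + 4) < |T s c|), ((H : ℝ) / L ^ (U + 4)) ^ 2 := by
            rw [sum_const, nsmul_eq_mul]
        _ ≤ ∑ c ∈ (Icc (-(X : ℤ)) X).filter (fun c => H / L ^ (U + 4) < |T s c|), T s c ^ 2 := by
            refine sum_le_sum fun c hc => ?_
            rw [mem_filter] at hc
            rw [← sq_abs (T s c)]
            exact pow_le_pow_left₀ (by positivity) hc.2.le 2
        _ ≤ _ := sum_le_sum_of_subset_of_nonneg (filter_subset _ _) fun c _ _ => sq_nonneg _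
    have h8 := h7.trans h6
    have h9 : X * (H : ℝ) ^ 2 / L ^ (3 * U + 10) = X / L ^ (U + 2) * (H / L ^ (U + 4)) ^ 2 := by
      rw [show 3 * U + 10 = (U + 2) + (U + 4) * 2 by ring, pow_add, pow_mul]
      field_simp
    rw [h9] at h8
    exact le_of_mul_le_mul_right h8 (by positivity)
  refine ⟨Bad0 ∪ ((Icc (-(X : ℤ)) X).filter (fun c => H / L ^ (U + 4) < |T 1 c|) ∪
    (Icc (-(X : ℤ)) X).filter (fun c => H / L ^ (U + 4) < |T (-1) c|)),
    union_subset k1 (union_subset (filter_subset _ _) (filter_subset _ _)), ?_, ?_⟩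
  · have e1 := card_union_le Bad0 ((Icc (-(X : ℤ)) X).filter (fun c => H / L ^ (U + 4) < |T 1 c|) ∪
      (Icc (-(X : ℤ)) X).filter (fun c => H / L ^ (U + 4) < |T (-1) c|))
    have e2 := card_union_le ((Icc (-(X : ℤ)) X).filter (fun c => H / L ^ (U + 4) < |T 1 c|))
      ((Icc (-(X : ℤ)) X).filter (fun c => H / L ^ (U + 4) < |T (-1) c|))
    have e3 : (#(Bad0 ∪ ((Icc (-(X : ℤ)) X).filter (fun c => H / L ^ (U + 4) < |T 1 c|) ∪
      (Icc (-(X : ℤ)) X).filter (fun c => H / L ^ (U + 4) < |T (-1) c|))) : ℝ) ≤ #Bad0 +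
        (#((Icc (-(X : ℤ)) X).filter (fun c => H / L ^ (U + 4) < |T 1 c|)) +
        #((Icc (-(X : ℤ)) X).filter (fun c => H / L ^ (U + 4) < |T (-1) c|))) := by
      exact_mod_cast e1.trans (Nat.add_le_add_left e2 _)
    have e4 := hbad 1 (Or.inl rfl)
    have e5 := hbad (-1) (Or.inr rfl)
    have e6 : X / L ^ U = X / L ^ (U + 2) * L ^ 2 := by
      rw [pow_add]; field_simp
    have e7 : 0 ≤ X / L ^ (U + 2) := by positivity
    have e8 : (3 : ℝ) ≤ L ^ 2 := by nlinarith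
    rw [e6]
    nlinarith
  · intro c hc hcB hadm
    rw [mem_union, mem_union, not_or, not_or] at hcB
    obtain ⟨f1, f2, f3⟩ := hcB
    obtain ⟨S, hS0, hS1, hS2⟩ := k3 c hc f1 hadm
    refine ⟨S, hS0, hS1, fun s hs => ?_⟩
    have hTs : |T s c| ≤ H / L ^ (U + 4) := by
      rcases hs with h | h
      · rw [h]
        rw [mem_filter, not_and] at f2
        exact not_lt.1 (f2 hc)
      · rw [h]
        rw [mem_filter, not_and] at f3
        exact not_lt.1 (f3 hc)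
    have hmd := hmod k hk1 z hzy a b c hadm s hs m (m + H) (by omega)
    have hRl := RR_low hadm hz2' haz
    have hRR : Vc a b c z / V1 z = RR a b c z := rfl
    rw [hRR] at hS2
    set R := RR a b c z with hR
    set M := eps a b * S * gcdProd a b with hM
    set W := lS s a b c m (m + H) with hW
    have hW0 : 0 ≤ W := lS_nonneg _ _ _ _ _ _
    have hW1 : W ≤ 3 / 2 * H := by
      have := lS_le s a b c m (m + H) (by omega)
      rw [← hW] at this
      push_cast at this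
      linarith
    have hWe : ∑ i ∈ (Ioc m (m + H)).filter (fun i : ℕ => 2 ≤ s * qv a b c i), wt (s * qv a b c i).toNat = W := rfl
    rw [hWe] at hmd
    have hR0 : 1 / L ^ 2 ≤ R := by
      refine le_trans ?_ hRl
      calc 1 / L ^ 2 = (1 / L) ^ 2 := by rw [div_pow, one_pow]
        _ ≤ Vz z ^ 2 := pow_le_pow_left₀ (by positivity) hVl 2
    have hRpos : 0 < R := lt_of_lt_of_le (by positivity) hR0
    have hL2 : (10000 : ℝ) ≤ L ^ 2 := by nlinarith
    have hU2 : L ^ 2 ≤ L ^ (U + 2) := hLmono (by omega)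
    have hinv : 1 / L ^ (U + 2) ≤ 1 / 2 := one_div_le_one_div_of_le (by norm_num) (by linarith)
    have hMR := abs_le.1 hS2
    have hRM : R ≤ 2 * M := by
      have h6 : R / L ^ (U + 2) ≤ R * (1 / 2) := by
        rw [div_eq_mul_one_div]
        exact mul_le_mul_of_nonneg_left hinv hRpos.le
      linarith [hMR.1]
    have hM0 : 0 < M := by linarith
    have hML : 1 ≤ 2 * M * L ^ 2 := by
      have h6 : 1 ≤ R * L ^ 2 := by
        rw [div_le_iff₀ (by positivity)] at hR0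
        exact hR0
      have h7 : R * L ^ 2 ≤ 2 * M * L ^ 2 := mul_le_mul_of_nonneg_right hRM (by positivity)
      linarith
    -- the pieces
    have e1 := pC_eq s a b c m (m + H) z R
    rw [← hW] at e1
    have e2 : (pC s a b c m (m + H) : ℝ) - M * W = ((pC s a b c m (m + H) : ℝ) - R * W) + (R - M) * W := by ring
    have hunit : H / L ^ (U + 4) ≤ 2 * (M * H / L ^ (U + 2)) := by
      have h6 : H / L ^ (U + 4) = 1 * (H / L ^ (U + 4)) := by ring
      rw [h6]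
      calc 1 * (H / L ^ (U + 4)) ≤ (2 * M * L ^ 2) * (H / L ^ (U + 4)) := by gcongr
        _ = 2 * (M * H / L ^ (U + 2)) := by
            rw [show U + 4 = (U + 2) + 2 by ring, pow_add]
            field_simp
    have hp1 : |∑ n ∈ Ioc m (m + H), ff z (s * qv a b c n)| ≤ 2 * (M * H / L ^ (U + 2)) := by
      refine le_trans ?_ (hTs.trans hunit)
      rw [hT]
    have hp2 : (1 / 2 : ℝ) ^ k * R * W + 3 * (z : ℝ) ^ (C1 * k + 1) ≤ 5 * (M * H / L ^ (U + 2)) := by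
      have h6 : (1 / 2 : ℝ) ^ k * R * W ≤ (1 / L ^ (U + 2)) * (2 * M) * (3 / 2 * H) := by gcongr
      have h7 : (1 / L ^ (U + 2)) * (2 * M) * (3 / 2 * H) = 3 * (M * H / L ^ (U + 2)) := by
        field_simp
      linarith [hsmall.trans hunit]
    have hp3 : |(R - M) * W| ≤ 3 * (M * H / L ^ (U + 2)) := by
      rw [abs_mul, abs_of_nonneg hW0, abs_sub_comm]
      calc |M - R| * W ≤ (R / L ^ (U + 2)) * (3 / 2 * H) := by gcongr
        _ ≤ (2 * M / L ^ (U + 2)) * (3 / 2 * H) := by gcongr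
        _ = _ := by ring
    have htot : |(pC s a b c m (m + H) : ℝ) - M * W| ≤ 10 * (M * H / L ^ (U + 2)) := by
      rw [e2, e1]
      refine (abs_add_le _ _).trans ?_
      have h6 := abs_add_le (∑ n ∈ Ioc m (m + H), ff z (s * qv a b c n))
        (∑ i ∈ (Ioc m (m + H)).filter (fun i : ℕ => 2 ≤ s * qv a b c i),
          wt (s * qv a b c i).toNat * (lamz z (s * qv a b c i).toNat - R))
      linarith
    refine htot.trans ?_
    have e6 : M * H / L ^ U = M * H / L ^ (U + 2) * L ^ 2 := by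
      rw [pow_add]; field_simp
    rw [e6]
    have e7 : 0 ≤ M * H / L ^ (U + 2) := by positivity
    nlinarith

end Run7.h373.QW
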