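import Mathlib
import Pool.Agent.Run7.h437.CR.PW
import Pool.Agent.Run7.h437.CR.LZF
import Pool.Agent.Run7.h292.CR.MOC
import Pool.Agent.Run7.h292.CR.SIC
import Pool.Agent.Run7.h292.CR.FD
import Pool.Agent.Run7.h545.CR.DPL
import Pool.Agent.Run7.h18.CR.Chr
import Pool.Agent.Run7.h18.CR.Lup
import Pool.Agent.Run7.h373.CR.Win
import Pool.Agent.Run7.h373.CR.Sia
import Pool.Agent.Run7.h373.CR.Lz
import Pool.Agent.Run7.h373.CR.Fi

/-! Project QW (helper373): the unconditional form of `S_FI`. -/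

namespace Run7.h373.QW

/-- `S_FI` without hypotheses (all pieces of project CR) -/
theorem FI : Run7.h757.CR.S_FI :=
  Run7.h373.CR.fi (Run7.h373.CR.sia (Run7.h292.CR.sic
    (Run7.h545.CR.dpl (Run7.h437.CR.pw Run7.h18.CR.chr
      (Run7.h292.CR.moc (Run7.h437.CR.lzf Run7.h18.CR.lup))) Run7.h18.CR.chr Run7.h292.CR.fd) Run7.h373.CR.win))
    Run7.h373.CR.lz

end Run7.h373.QW
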